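import Mathlib

set_option autoImplicit false

namespace Pool.Agent.Lib.MP_18663b_an

open Finset

/-- The number of positions `n < N` at which the base-`r` digit block of length `k` of `y` is `w`. -/
noncomputable def cnt (r : ℕ) (y : ℝ) (N k : ℕ) (w : Fin k → Fin r) : ℕ :=
  ((Finset.range N).filter (fun n : ℕ =>
    ∀ i : Fin k, ⌊(r : ℝ) ^ (n + i.val + 1) * y⌋ % (r : ℤ) = ((w i : ℕ) : ℤ))).card

/-- Empirical block entropy. -/
noncomputable def HH (r : ℕ) (y : ℝ) (N k : ℕ) : ℝ :=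
  ∑ w : Fin k → Fin r, Real.negMulLog ((cnt r y N k w : ℝ) / (N : ℝ))

/-- floor of `r * t` in terms of the floor of `t`. -/
lemma floor_mul (r : ℕ) (hr : 0 < r) (t : ℝ) :
    ⌊(r : ℝ) * t⌋ = (r : ℤ) * ⌊t⌋ + ⌊(r : ℝ) * t⌋ % (r : ℤ) := by
  have h1 : ⌊t⌋ = ⌊(r : ℝ) * t⌋ / (r : ℤ) := by
    rw [← Int.floor_div_natCast]
    congr 1
    field_simp
  rw [h1]
  exact (Int.mul_ediv_add_emod _ _).symm

/-- Along a fixed block, the floor at the end is an affine function of the floor at the start. -/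
lemma floor_block (r : ℕ) (hr : 0 < r) (y : ℝ) (w : ℕ → ℤ) (k : ℕ) :
    ∃ A : ℤ, ∀ n : ℕ, (∀ i < k, ⌊(r : ℝ) ^ (n + i + 1) * y⌋ % (r : ℤ) = w i) →
      ⌊(r : ℝ) ^ (n + k) * y⌋ = (r : ℤ) ^ k * ⌊(r : ℝ) ^ n * y⌋ + A := by
  induction k with
  | zero => exact ⟨0, fun n _ => by simp⟩
  | succ k ih =>
    obtain ⟨A, hA⟩ := ih
    refine ⟨r * A + w k, fun n hn => ?_⟩
    have h1 := hA n (fun i hi => hn i (Nat.lt_succ_of_lt hi))
    have h2 := hn k (Nat.lt_succ_self k)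
    have h3 : (r : ℝ) ^ (n + (k + 1)) * y = (r : ℝ) * ((r : ℝ) ^ (n + k) * y) := by
      rw [← add_assoc, pow_succ]; ring
    have h4 : (r : ℝ) ^ (n + k + 1) * y = (r : ℝ) * ((r : ℝ) ^ (n + k) * y) := by
      rw [pow_succ]; ring
    rw [h3, floor_mul r hr, ← h4, h2, h1]
    ring

/-- Positions carrying a given block have fractional parts in a fixed interval of length `r^{-k}`. -/
lemma block_interval (r : ℕ) (hr : 0 < r) (y : ℝ) (k : ℕ) (w : Fin k → Fin r) :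
    ∃ α : ℝ, ∀ n : ℕ,
      (∀ i : Fin k, ⌊(r : ℝ) ^ (n + i.val + 1) * y⌋ % (r : ℤ) = ((w i : ℕ) : ℤ)) →
      ∃ z : ℤ, α ≤ (r : ℝ) ^ n * y - z ∧ (r : ℝ) ^ n * y - z ≤ α + 1 / (r : ℝ) ^ k := by
  have hr' : (0 : ℝ) < (r : ℝ) ^ k := by positivity
  obtain ⟨A, hA⟩ := floor_block r hr y
    (fun i => if h : i < k then ((w ⟨i, h⟩ : ℕ) : ℤ) else 0) k
  refine ⟨(A : ℝ) / (r : ℝ) ^ k, fun n hn => ⟨⌊(r : ℝ) ^ n * y⌋, ?_⟩⟩
  have h1 := hA n (fun i hi => by simpa [hi] using hn ⟨i, hi⟩)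
  have h2 := Int.floor_le ((r : ℝ) ^ (n + k) * y)
  have h3 := Int.lt_floor_add_one ((r : ℝ) ^ (n + k) * y)
  rw [h1] at h2 h3
  push_cast at h2 h3
  have h4 : (r : ℝ) ^ (n + k) * y = (r : ℝ) ^ k * ((r : ℝ) ^ n * y) := by rw [pow_add]; ring
  rw [h4] at h2 h3
  constructor
  · rw [div_le_iff₀ hr']; nlinarith
  · rw [← add_div, le_div_iff₀ hr']; nlinarith

/-- A digit is zero when the previous fractional part is less than `1/r`. -/
lemma digit_zero (r : ℕ) (hr : 0 < r) (y : ℝ) (n : ℕ) (z : ℤ)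
    (h1 : (z : ℝ) ≤ (r : ℝ) ^ n * y) (h2 : (r : ℝ) ^ n * y < z + 1 / (r : ℝ)) :
    ⌊(r : ℝ) ^ (n + 1) * y⌋ % (r : ℤ) = 0 := by
  have hr' : (0 : ℝ) < (r : ℝ) := by positivity
  have h3 : ⌊(r : ℝ) ^ (n + 1) * y⌋ = (r : ℤ) * z := by
    rw [Int.floor_eq_iff]
    have h4 : (r : ℝ) ^ (n + 1) * y = (r : ℝ) * ((r : ℝ) ^ n * y) := by rw [pow_succ]; ring
    rw [h4]
    push_cast
    constructor
    · exact mul_le_mul_of_nonneg_left h1 hr'.le
    · have := mul_lt_mul_of_pos_left h2 hr'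
      have h5 : (r : ℝ) * (z + 1 / (r : ℝ)) = r * z + 1 := by field_simp
      linarith
  rw [h3]
  exact Int.mul_emod_right _ _

/-- Splitting a range of length `a * B` into `B` blocks of length `a`. -/
lemma sum_range_mul' (f : ℕ → ℕ) (a B : ℕ) :
    ∑ n ∈ range (a * B), f n = ∑ i ∈ range B, ∑ e ∈ range a, f (a * i + e) := by
  induction B with
  | zero => simp
  | succ B ih => rw [Nat.mul_succ, Finset.sum_range_add, ih, Finset.sum_range_succ]

lemma card_filter_range_mul (P : ℕ → Prop) [DecidablePred P] (a B C : ℕ)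
    (h : ∀ i < B, ((range a).filter (fun e => P (a * i + e))).card ≤ C) :
    ((range (a * B)).filter P).card ≤ B * C := by
  rw [Finset.card_filter, sum_range_mul']
  calc ∑ i ∈ range B, ∑ e ∈ range a, (if P (a * i + e) then 1 else 0)
      ≤ ∑ i ∈ range B, C := by
        refine Finset.sum_le_sum (fun i hi => ?_)
        rw [← Finset.card_filter]
        exact h i (Finset.mem_range.1 hi)
    _ = B * C := by simp

lemma card_filter_range_mul_swap (P : ℕ → Prop) [DecidablePred P] (a B C : ℕ)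
    (h : ∀ e < a, ((range B).filter (fun i => P (a * i + e))).card ≤ C) :
    ((range (a * B)).filter P).card ≤ a * C := by
  rw [Finset.card_filter, sum_range_mul', Finset.sum_comm]
  calc ∑ e ∈ range a, ∑ i ∈ range B, (if P (a * i + e) then 1 else 0)
      ≤ ∑ e ∈ range a, C := by
        refine Finset.sum_le_sum (fun i hi => ?_)
        rw [← Finset.card_filter]
        exact h i (Finset.mem_range.1 hi)
    _ = a * C := by simp

/-- Lifting the exponent: `b^(c+m)` does not divide `g^d - 1` for `0 < d < b^m`. -/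
lemma not_dvd_pow_sub_one (b g c m d : ℕ) (hb : b.Prime) (hodd : Odd b) (hg : 1 < g)
    (hbg : b ∣ g - 1) (hc : c = padicValNat b (g - 1)) (hd : 0 < d) (hdm : d < b ^ m) :
    ¬ b ^ (c + m) ∣ g ^ d - 1 := by
  have : Fact b.Prime := ⟨hb⟩
  intro hdiv
  have hbg' : ¬ b ∣ g := by
    intro h
    have h1 : b ∣ g - (g - 1) := Nat.dvd_sub h hbg
    have h2 : g - (g - 1) = 1 := by omega
    rw [h2] at h1
    exact hb.one_lt.ne' (Nat.dvd_one.1 h1)
  have h1 := padicValNat.pow_sub_pow (p := b) hodd (x := g) (y := 1) hg hbg hbg' (n := d) hd.ne'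
  rw [one_pow] at h1
  have hne : g ^ d - 1 ≠ 0 := by
    have : 1 < g ^ d := Nat.one_lt_pow hd.ne' hg
    omega
  have h2 : c + m ≤ padicValNat b (g ^ d - 1) := (padicValNat_dvd_iff_le hne).1 hdiv
  have h3 : m ≤ padicValNat b d := by omega
  have h4 : b ^ m ∣ d := (padicValNat_dvd_iff_le hd.ne').2 h3
  exact absurd (Nat.le_of_dvd hd h4) (by omega)

/-- number of integers in a real interval -/
lemma card_Icc_le (A B : ℝ) (h : 0 ≤ B - A + 1) : ((Finset.Icc ⌈A⌉ ⌊B⌋).card : ℝ) ≤ B - A + 1 := by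
  rw [Int.card_Icc]
  have h1 := Int.le_ceil A
  have h2 := Int.floor_le B
  rcases le_or_gt 0 (⌊B⌋ + 1 - ⌈A⌉) with h3 | h3
  · have h4 : (((⌊B⌋ + 1 - ⌈A⌉).toNat : ℕ) : ℝ) = (((⌊B⌋ + 1 - ⌈A⌉).toNat : ℤ) : ℝ) :=
      (Int.cast_natCast _).symm
    rw [h4, Int.toNat_of_nonneg h3]; push_cast; linarith
  · rw [Int.toNat_of_nonpos h3.le]; simpa using h

open scoped Classical in
/-- Within one full cycle the powers `r^s * g^i` modulo `b^(c+m)` are equidistributed in their class. -/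
lemma count_cycle (b r c m s : ℕ) (hb : b.Prime) (hodd : Odd b) (hr : 2 ≤ r) (hbr : ¬ b ∣ r)
    (hc : c = padicValNat b (r ^ (b - 1) - 1)) (α β : ℝ) (hαβ : α ≤ β) :
    (((range (b ^ m)).filter (fun i : ℕ => ∃ z : ℤ,
      α ≤ (r : ℝ) ^ (s + (b - 1) * i) / (b : ℝ) ^ (c + m) - z ∧
      (r : ℝ) ^ (s + (b - 1) * i) / (b : ℝ) ^ (c + m) - z ≤ β)).card : ℝ)
      ≤ (β - α) * (b : ℝ) ^ m + 1 := by
  classical
  have : Fact b.Prime := ⟨hb⟩
  have hb0 : 0 < b := hb.pos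
  have hbR : (0 : ℝ) < (b : ℝ) := by exact_mod_cast hb0
  set g : ℕ := r ^ (b - 1) with hg
  have hb1 : b - 1 ≠ 0 := by have := hb.two_le; omega
  have hg1 : 1 < g := Nat.one_lt_pow hb1 (by omega)
  have hcop : Nat.Coprime r b := ((Nat.Prime.coprime_iff_not_dvd hb).2 hbr).symm
  have hbg : b ∣ g - 1 := by
    have h1 : r ^ (b - 1) ≡ 1 [MOD b] := by
      have := Nat.ModEq.pow_totient hcop
      rwa [Nat.totient_prime hb] at this
    exact (Nat.modEq_iff_dvd' hg1.le).1 h1.symm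
  have hcd : (b : ℤ) ^ c ∣ (g : ℤ) - 1 := by
    have h1 : b ^ c ∣ g - 1 := by rw [hc]; exact pow_padicValNat_dvd
    have h2 : ((b ^ c : ℕ) : ℤ) ∣ ((g - 1 : ℕ) : ℤ) := Int.natCast_dvd_natCast.2 h1
    rw [Nat.cast_sub hg1.le] at h2
    simpa using h2
  have hcdi : ∀ i : ℕ, (b : ℤ) ^ c ∣ (g : ℤ) ^ i - 1 := fun i =>
    hcd.trans (by simpa using sub_dvd_pow_sub_pow (g : ℤ) 1 i)
  -- choose the integers
  let S := (range (b ^ m)).filter (fun i : ℕ => ∃ z : ℤ,
      α ≤ (r : ℝ) ^ (s + (b - 1) * i) / (b : ℝ) ^ (c + m) - z ∧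
      (r : ℝ) ^ (s + (b - 1) * i) / (b : ℝ) ^ (c + m) - z ≤ β)
  have hS : ∀ i ∈ S, ∃ z : ℤ,
      α ≤ (r : ℝ) ^ (s + (b - 1) * i) / (b : ℝ) ^ (c + m) - z ∧
      (r : ℝ) ^ (s + (b - 1) * i) / (b : ℝ) ^ (c + m) - z ≤ β := fun i hi =>
    (Finset.mem_filter.1 hi).2
  choose! zf hzf using hS
  choose hfun hhfun using hcdi
  let F : ℕ → ℤ := fun i => (r : ℤ) ^ s * hfun i - zf i * (b : ℤ) ^ m
  have hFkey : ∀ i : ℕ, (b : ℤ) ^ c * F i = (r : ℤ) ^ (s + (b - 1) * i) - zf i * (b : ℤ) ^ (c + m)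
      - (r : ℤ) ^ s := by
    intro i
    have h1 := hhfun i
    have h2 : (r : ℤ) ^ (s + (b - 1) * i) = (r : ℤ) ^ s * (g : ℤ) ^ i := by
      rw [hg]; push_cast; rw [pow_add, pow_mul]
    rw [h2, pow_add]
    have h3 : (g : ℤ) ^ i = (b : ℤ) ^ c * hfun i + 1 := by linarith
    rw [h3]
    simp only [F]
    ring
  have hFreal : ∀ i : ℕ, (F i : ℝ) = ((r : ℝ) ^ (s + (b - 1) * i) / (b : ℝ) ^ (c + m) - zf i)
      * (b : ℝ) ^ m - (r : ℝ) ^ s / (b : ℝ) ^ c := by
    intro i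
    have h1 := hFkey i
    have h2 : ((b : ℝ) ^ c * (F i : ℝ)) = (r : ℝ) ^ (s + (b - 1) * i) - zf i * (b : ℝ) ^ (c + m)
      - (r : ℝ) ^ s := by exact_mod_cast h1
    have hbc : (b : ℝ) ^ c ≠ 0 := by positivity
    have hbm : (b : ℝ) ^ m ≠ 0 := by positivity
    rw [pow_add (b : ℝ) c m] at h2 ⊢
    field_simp
    linarith
  have hmaps : ∀ i ∈ S, F i ∈ Finset.Icc ⌈α * (b : ℝ) ^ m - (r : ℝ) ^ s / (b : ℝ) ^ c⌉
      ⌊β * (b : ℝ) ^ m - (r : ℝ) ^ s / (b : ℝ) ^ c⌋ := by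
    intro i hi
    have hbm : (0 : ℝ) < (b : ℝ) ^ m := by positivity
    rw [Finset.mem_Icc, Int.ceil_le, Int.le_floor, hFreal i]
    obtain ⟨h1, h2⟩ := hzf i hi
    constructor
    · have := mul_le_mul_of_nonneg_right h1 hbm.le
      linarith
    · have := mul_le_mul_of_nonneg_right h2 hbm.le
      linarith
  have hinj : Set.InjOn F S := by
    have key : ∀ i j : ℕ, i ∈ S → j ∈ S → i < j → F i ≠ F j := by
      intro i j hi hj hij hF
      have h1 := hFkey i
      have h2 := hFkey j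
      rw [hF] at h1
      have hj' : j < b ^ m := Finset.mem_range.1 (Finset.mem_filter.1 hj).1
      have h3 : (r : ℤ) ^ (s + (b - 1) * j) - (r : ℤ) ^ (s + (b - 1) * i)
          = (zf j - zf i) * (b : ℤ) ^ (c + m) := by linarith
      have h4 : (r : ℤ) ^ (s + (b - 1) * j) - (r : ℤ) ^ (s + (b - 1) * i)
          = (r : ℤ) ^ (s + (b - 1) * i) * ((g : ℤ) ^ (j - i) - 1) := by
        rw [hg]; push_cast
        have : s + (b - 1) * j = s + (b - 1) * i + (b - 1) * (j - i) := by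
          obtain ⟨d, rfl⟩ := Nat.exists_eq_add_of_lt hij
          have : i + d + 1 - i = d + 1 := by omega
          rw [this]; ring
        rw [this, pow_add, pow_mul (r : ℤ) (b - 1) (j - i)]
        ring
      have h5 : (b : ℤ) ^ (c + m) ∣ (r : ℤ) ^ (s + (b - 1) * i) * ((g : ℤ) ^ (j - i) - 1) := by
        rw [← h4, h3]; exact Dvd.intro_left _ rfl
      have h6 : IsCoprime ((b : ℤ) ^ (c + m)) ((r : ℤ) ^ (s + (b - 1) * i)) := by
        apply IsCoprime.pow
        exact Nat.isCoprime_iff_coprime.2 hcop.symm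
      have h7 : (b : ℤ) ^ (c + m) ∣ ((g : ℤ) ^ (j - i) - 1) := h6.dvd_of_dvd_mul_left h5
      have h8 : b ^ (c + m) ∣ g ^ (j - i) - 1 := by
        have h9 : 1 ≤ g ^ (j - i) := Nat.one_le_pow _ _ (by omega)
        have : ((b ^ (c + m) : ℕ) : ℤ) ∣ ((g ^ (j - i) - 1 : ℕ) : ℤ) := by
          rw [Nat.cast_sub h9]; push_cast; exact h7
        exact Int.natCast_dvd_natCast.1 this
      exact not_dvd_pow_sub_one b g c m (j - i) hb hodd hg1 hbg hc (by omega) (by omega) h8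
    intro i hi j hj hF
    rcases lt_trichotomy i j with h | h | h
    · exact absurd hF (key i j hi hj h)
    · exact h
    · exact absurd hF.symm (key j i hj hi h)
  have hcard := Finset.card_le_card_of_injOn F hmaps hinj
  have h9 : (0 : ℝ) ≤ (β - α) * (b : ℝ) ^ m := mul_nonneg (by linarith) (by positivity)
  have h10 := card_Icc_le (α * (b : ℝ) ^ m - (r : ℝ) ^ s / (b : ℝ) ^ c)
      (β * (b : ℝ) ^ m - (r : ℝ) ^ s / (b : ℝ) ^ c) (by linarith)
  calc (S.card : ℝ) ≤ _ := by exact_mod_cast hcard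
    _ ≤ _ := h10
    _ = (β - α) * (b : ℝ) ^ m + 1 := by ring

open scoped Classical in
/-- Count over a range whose length is a multiple of `(b-1) * b^m`. -/
lemma count_range (b r c m L : ℕ) (hb : b.Prime) (hodd : Odd b) (hr : 2 ≤ r) (hbr : ¬ b ∣ r)
    (hc : c = padicValNat b (r ^ (b - 1) - 1)) (α β : ℝ) (hαβ : α ≤ β) :
    (((range ((b - 1) * (b ^ m * L))).filter (fun n : ℕ => ∃ z : ℤ,
      α ≤ (r : ℝ) ^ n / (b : ℝ) ^ (c + m) - z ∧
      (r : ℝ) ^ n / (b : ℝ) ^ (c + m) - z ≤ β)).card : ℝ)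
      ≤ ((b - 1) * (b ^ m * L) : ℕ) * ((β - α) + 1 / (b : ℝ) ^ m) := by
  classical
  have hbR : (0 : ℝ) < (b : ℝ) := by exact_mod_cast hb.pos
  have hbm : (0 : ℝ) < (b : ℝ) ^ m := by positivity
  set C : ℕ := ⌊(β - α) * (b : ℝ) ^ m + 1⌋₊ with hC
  have h0 : (0 : ℝ) ≤ (β - α) * (b : ℝ) ^ m + 1 := by
    have : (0 : ℝ) ≤ (β - α) * (b : ℝ) ^ m := mul_nonneg (by linarith) (by positivity)
    linarith
  have h1 : ∀ e < b - 1, ((range (b ^ m * L)).filter (fun i => ∃ z : ℤ,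
      α ≤ (r : ℝ) ^ ((b - 1) * i + e) / (b : ℝ) ^ (c + m) - z ∧
      (r : ℝ) ^ ((b - 1) * i + e) / (b : ℝ) ^ (c + m) - z ≤ β)).card ≤ L * C := by
    intro e _
    apply card_filter_range_mul
    intro t _
    rw [hC]
    apply Nat.le_floor
    have := count_cycle b r c m ((b - 1) * (b ^ m * t) + e) hb hodd hr hbr hc α β hαβ
    refine le_trans (le_of_eq ?_) this
    have hrw : ∀ i, (b - 1) * (b ^ m * t + i) + e = (b - 1) * (b ^ m * t) + e + (b - 1) * i := by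
      intro i; ring
    simp only [hrw]
  have h2 := card_filter_range_mul_swap (fun n : ℕ => ∃ z : ℤ,
      α ≤ (r : ℝ) ^ n / (b : ℝ) ^ (c + m) - z ∧
      (r : ℝ) ^ n / (b : ℝ) ^ (c + m) - z ≤ β) (b - 1) (b ^ m * L) (L * C) h1
  have h3 : (C : ℝ) ≤ (β - α) * (b : ℝ) ^ m + 1 := Nat.floor_le h0
  calc _ ≤ (((b - 1) * (L * C) : ℕ) : ℝ) := by exact_mod_cast h2
    _ = ((b - 1 : ℕ) : ℝ) * ((L : ℝ) * C) := by push_cast; ring
    _ ≤ ((b - 1 : ℕ) : ℝ) * ((L : ℝ) * ((β - α) * (b : ℝ) ^ m + 1)) := by gcongr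
    _ = _ := by push_cast; field_simp

/-- Entropy lower bound from a sub-collection in which no atom is heavy. -/
lemma entropy_lower {ι : Type*} [Fintype ι] (cc aa : ι → ℝ) (N A : ℝ) (θ : ℝ)
    (ha : ∀ i, 0 ≤ aa i) (hac : ∀ i, aa i ≤ cc i) (hN : ∑ i, cc i = N) (hA : ∑ i, aa i = A)
    (hA0 : 0 < A) (hθ : ∀ i, aa i / A ≤ θ) :
    A / N * Real.log (1 / θ) ≤ ∑ i, Real.negMulLog (cc i / N) := by
  have hAN : A ≤ N := by rw [← hN, ← hA]; exact Finset.sum_le_sum (fun i _ => hac i)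
  have hN0 : 0 < N := lt_of_lt_of_le hA0 hAN
  have hstep : ∀ i, A / N * Real.negMulLog (aa i / A) ≤ Real.negMulLog (cc i / N) := by
    intro i
    rcases eq_or_lt_of_le hAN with h | h
    · -- A = N, then aa = cc
      have h1 : ∑ i, (cc i - aa i) = 0 := by rw [Finset.sum_sub_distrib, hN, hA, h, sub_self]
      have h2 := (Finset.sum_eq_zero_iff_of_nonneg (fun i _ => sub_nonneg.2 (hac i))).1 h1 i
        (Finset.mem_univ i)
      have h3 : cc i = aa i := by linarith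
      rw [h, div_self hN0.ne', one_mul, h3]
    · have hB : 0 < N - A := by linarith
      have hx : aa i / A ∈ Set.Ici (0 : ℝ) := div_nonneg (ha i) hA0.le
      have hy : (cc i - aa i) / (N - A) ∈ Set.Ici (0 : ℝ) :=
        div_nonneg (by linarith [hac i]) hB.le
      have h1 : 0 ≤ A / N := by positivity
      have h2 : 0 ≤ (N - A) / N := by positivity
      have h3 : A / N + (N - A) / N = 1 := by field_simp; ring
      have hconc := Real.concaveOn_negMulLog.2 hx hy h1 h2 h3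
      simp only [smul_eq_mul] at hconc
      have h4 : A / N * (aa i / A) + (N - A) / N * ((cc i - aa i) / (N - A)) = cc i / N := by
        field_simp; ring
      rw [h4] at hconc
      have h5 : (cc i - aa i) / (N - A) ≤ 1 := by
        rw [div_le_one hB]
        have : ∑ j, (cc j - aa j) = N - A := by rw [Finset.sum_sub_distrib, hN, hA]
        rw [← this]
        exact Finset.single_le_sum (f := fun j => cc j - aa j)
          (fun j _ => sub_nonneg.2 (hac j)) (Finset.mem_univ i)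
      have h6 := Real.negMulLog_nonneg hy h5
      have h7 := mul_nonneg h2 h6
      linarith
  have hatom : ∀ i, aa i / A * Real.log (1 / θ) ≤ Real.negMulLog (aa i / A) := by
    intro i
    rcases eq_or_lt_of_le (ha i) with h | h
    · rw [← h]; simp
    · have hp : 0 < aa i / A := by positivity
      unfold Real.negMulLog
      have h1 : Real.log (aa i / A) ≤ Real.log θ := Real.log_le_log hp (hθ i)
      rw [one_div, Real.log_inv]
      nlinarith
  calc A / N * Real.log (1 / θ) = A / N * ∑ i, aa i / A * Real.log (1 / θ) := by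
        rw [← Finset.sum_mul, ← Finset.sum_div, hA, div_self hA0.ne', one_mul]
    _ ≤ A / N * ∑ i, Real.negMulLog (aa i / A) := by
        apply mul_le_mul_of_nonneg_left _ (by positivity)
        exact Finset.sum_le_sum (fun i _ => hatom i)
    _ = ∑ i, A / N * Real.negMulLog (aa i / A) := by rw [Finset.mul_sum]
    _ ≤ _ := Finset.sum_le_sum (fun i _ => hstep i)

end Pool.Agent.Lib.MP_18663b_an
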