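import Pool.Agent.Lib.MP_18663b_an.Stage

set_option autoImplicit false

namespace Pool.Agent.Lib.MP_18663b_an

open Finset

/-- number of positions in `[N0, n0)` with nonzero digit -/
noncomputable def nz (r : ℕ) (x : ℝ) (N0 n0 : ℕ) : ℕ :=
  ((range n0).filter (fun n => N0 ≤ n ∧ ⌊(r : ℝ) ^ (n + 1) * x⌋ % (r : ℤ) ≠ 0)).card

lemma bad_mod_count (ℓ D0 T : ℕ) (hℓ : 1 ≤ ℓ) (hD : D0 ≤ ℓ) :
    ((range T).filter (fun k => ℓ < k % ℓ + D0)).card ≤ (T / ℓ + 1) * D0 := by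
  have h1 : (range T).filter (fun k => ℓ < k % ℓ + D0) ⊆
      (range (ℓ * (T / ℓ + 1))).filter (fun k => ℓ < k % ℓ + D0) := by
    apply Finset.filter_subset_filter
    intro k hk
    rw [Finset.mem_range] at hk ⊢
    have := Nat.div_add_mod T ℓ
    have h2 := Nat.mod_lt T (show 0 < ℓ by omega)
    rw [mul_add, mul_one]
    omega
  refine le_trans (Finset.card_le_card h1) (card_filter_range_mul _ ℓ (T / ℓ + 1) D0 ?_)
  intro i _
  have h2 : (range ℓ).filter (fun e => ℓ < (ℓ * i + e) % ℓ + D0) ⊆ Finset.Ico (ℓ - D0) ℓ := by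
    intro e he
    rw [Finset.mem_filter, Finset.mem_range] at he
    rw [Finset.mem_Ico]
    obtain ⟨he1, he2⟩ := he
    rw [Nat.mul_add_mod, Nat.mod_eq_of_lt he1] at he2
    omega
  calc _ ≤ (Finset.Ico (ℓ - D0) ℓ).card := Finset.card_le_card h2
    _ = D0 := by rw [Nat.card_Ico]; omega

lemma nz_bound (r p N0 q ℓ s D0 K n0 : ℕ) (x : ℝ) (hr : 2 ≤ r) (hp : 0 < p) (hq : 0 < q)
    (hℓ : 1 ≤ ℓ) (hdp : p ∣ r ^ ℓ - 1) (hdq : q ∣ r ^ ℓ - 1)
    (hD0 : 4 * (r : ℝ) * (p : ℝ) ^ 2 ≤ (r : ℝ) ^ D0)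
    (hD0ℓ : 2 * K * D0 ≤ ℓ) (hK : 1 ≤ K) (hs : 6 * K ≤ s)
    (hN0ℓ : N0 ≤ ℓ)
    (hn0 : n0 ≤ N0 + (s + 4) * ℓ + (s - 1) * ℓ)
    (hx1 : xnew r p N0 q ℓ s ≤ x)
    (hx2 : x ≤ xnew r p N0 q ℓ s + 1 / (r : ℝ) ^ (4 * ((s + 4) * ℓ))) :
    K * nz r x N0 n0 ≤ n0 := by
  set M : ℕ := (s + 4) * ℓ with hM
  have hD0ℓ' : D0 ≤ ℓ := by nlinarith
  have hMℓ : M = s * ℓ + 4 * ℓ := by rw [hM]; ring
  have hsℓ : 6 * ℓ ≤ s * ℓ := Nat.mul_le_mul_right _ (by omega)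
  have hsub : (s - 1) * ℓ + ℓ = s * ℓ := by
    have h1 : s = (s - 1) + 1 := by omega
    conv_rhs => rw [h1]
    ring
  -- nonquiet positions
  have hbad : ∀ n, n < n0 → N0 ≤ n → ⌊(r : ℝ) ^ (n + 1) * x⌋ % (r : ℤ) ≠ 0 →
      N0 + M < n + ℓ + D0 ∧ (N0 + M ≤ n → ℓ < (n - (N0 + M)) % ℓ + D0) := by
    intro n hn hNn hne
    by_contra hcon
    apply hne
    apply quiet r p N0 q ℓ s D0 n x hr hp hq hℓ hdp hdq hD0 hNn _ _ _ hx1 hx2
    · rw [← hM]; omega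
    · rw [← hM]; omega
    · rw [← hM]
      by_cases h1 : n + ℓ + D0 ≤ N0 + M
      · left; exact h1
      · right
        have h2 : ¬ (N0 + M ≤ n → ℓ < (n - (N0 + M)) % ℓ + D0) := fun h => hcon ⟨by omega, h⟩
        push Not at h2
        obtain ⟨h3, h4⟩ := h2
        refine ⟨(n - (N0 + M)) / ℓ, (n - (N0 + M)) % ℓ, ?_, h4, ?_⟩
        · have := Nat.div_add_mod (n - (N0 + M)) ℓ
          omega
        · have h5 : n - (N0 + M) < (s - 1) * ℓ := by omega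
          have h6 : (n - (N0 + M)) / ℓ < s - 1 := by
            rw [Nat.div_lt_iff_lt_mul (by omega)]; exact h5
          omega
  rcases Nat.lt_or_ge (N0 + M) (n0 + ℓ + D0) with hcase | hcase
  · -- general case
    have hsubset : (range n0).filter (fun n => N0 ≤ n ∧ ⌊(r : ℝ) ^ (n + 1) * x⌋ % (r : ℤ) ≠ 0)
        ⊆ Finset.Ico (N0 + M - (ℓ + D0)) (N0 + M) ∪
          ((range (n0 - (N0 + M))).filter (fun k => ℓ < k % ℓ + D0)).image (fun k => N0 + M + k) := by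
      intro n hn
      rw [Finset.mem_filter, Finset.mem_range] at hn
      obtain ⟨h1, h2, h3⟩ := hn
      obtain ⟨h4, h5⟩ := hbad n h1 h2 h3
      rw [Finset.mem_union, Finset.mem_Ico, Finset.mem_image]
      rcases Nat.lt_or_ge n (N0 + M) with h6 | h6
      · left; omega
      · right
        refine ⟨n - (N0 + M), ?_, by omega⟩
        rw [Finset.mem_filter, Finset.mem_range]
        exact ⟨by omega, h5 h6⟩
    have hcard : nz r x N0 n0 ≤ (ℓ + D0) + ((n0 - (N0 + M)) / ℓ + 1) * D0 := by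
      unfold nz
      calc _ ≤ _ := Finset.card_le_card hsubset
        _ ≤ _ := Finset.card_union_le _ _
        _ ≤ (ℓ + D0) + ((n0 - (N0 + M)) / ℓ + 1) * D0 := by
          apply Nat.add_le_add
          · rw [Nat.card_Ico]; omega
          · exact le_trans Finset.card_image_le (bad_mod_count ℓ D0 _ hℓ hD0ℓ')
    -- numeric estimate
    have h1 : K * nz r x N0 n0 ≤ K * ((ℓ + D0) + ((n0 - (N0 + M)) / ℓ + 1) * D0) :=
      Nat.mul_le_mul_left _ hcard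
    set Q : ℕ := (n0 - (N0 + M)) / ℓ with hQ
    have h2 : ℓ * Q ≤ n0 - (N0 + M) := Nat.mul_div_le _ _
    have h3 : 2 * (K * (Q * D0)) ≤ ℓ * Q := by
      calc 2 * (K * (Q * D0)) = Q * (2 * K * D0) := by ring
        _ ≤ Q * ℓ := Nat.mul_le_mul_left _ hD0ℓ
        _ = ℓ * Q := by ring
    have h4 : K * ((ℓ + D0) + (Q + 1) * D0) = K * ℓ + K * D0 * 2 + K * (Q * D0) := by ring
    have h5 : 6 * (K * ℓ) ≤ s * ℓ := by
      calc 6 * (K * ℓ) = (6 * K) * ℓ := by ring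
        _ ≤ s * ℓ := Nat.mul_le_mul_right _ hs
    have h6 : K * D0 * 2 ≤ ℓ := by linarith
    have h7 : ℓ ≤ K * ℓ := Nat.le_mul_of_pos_left _ hK
    rw [h4] at h1
    rcases Nat.lt_or_ge n0 (N0 + M) with h8 | h8
    · have h9 : n0 - (N0 + M) = 0 := by omega
      have h10 : Q = 0 := by rw [hQ, h9]; simp
      rw [h10] at h1
      simp only [zero_mul, mul_zero, add_zero] at h1
      omega
    · omega
  · -- nothing
    have h1 : nz r x N0 n0 = 0 := by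
      unfold nz
      rw [Finset.card_eq_zero, Finset.filter_eq_empty_iff]
      intro n hn hcon
      have h2 := hbad n (Finset.mem_range.1 hn) hcon.1 hcon.2
      have h3 := Finset.mem_range.1 hn
      omega
    rw [h1]; simp

/-- the digit as an element of `Fin r` -/
noncomputable def dg (r : ℕ) (hr : 0 < r) (y : ℝ) (n : ℕ) : Fin r :=
  ⟨(⌊(r : ℝ) ^ (n + 1) * y⌋ % (r : ℤ)).toNat, by
    have h1 := Int.emod_nonneg ⌊(r : ℝ) ^ (n + 1) * y⌋ (show (r : ℤ) ≠ 0 by positivity)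
    have h2 := Int.emod_lt_of_pos ⌊(r : ℝ) ^ (n + 1) * y⌋ (show (0 : ℤ) < (r : ℤ) by positivity)
    omega⟩

lemma dg_iff (r : ℕ) (hr : 0 < r) (y : ℝ) (k : ℕ) (w : Fin k → Fin r) (n : ℕ) :
    (∀ i : Fin k, ⌊(r : ℝ) ^ (n + i.val + 1) * y⌋ % (r : ℤ) = ((w i : ℕ) : ℤ)) ↔
      (fun i : Fin k => dg r hr y (n + i.val)) = w := by
  have key : ∀ m (v : Fin r), ⌊(r : ℝ) ^ (m + 1) * y⌋ % (r : ℤ) = ((v : ℕ) : ℤ) ↔
      dg r hr y m = v := by
    intro m v
    have h1 := Int.emod_nonneg ⌊(r : ℝ) ^ (m + 1) * y⌋ (show (r : ℤ) ≠ 0 by positivity)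
    unfold dg
    rw [Fin.ext_iff]
    simp only
    omega
  constructor
  · intro h; funext i; exact (key _ _).1 (h i)
  · intro h i; exact (key _ _).2 (congrFun h i)

lemma cnt_eq (r : ℕ) (hr : 0 < r) (y : ℝ) (N k : ℕ) (w : Fin k → Fin r) :
    cnt r y N k w = ((range N).filter
      (fun n => (fun i : Fin k => dg r hr y (n + i.val)) = w)).card := by
  unfold cnt
  congr 1
  exact Finset.filter_congr (fun n _ => dg_iff r hr y k w n)

lemma sum_cnt (r : ℕ) (hr : 0 < r) (y : ℝ) (N k : ℕ) :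
    ∑ w : Fin k → Fin r, (cnt r y N k w : ℝ) = N := by
  have h1 : ∑ w : Fin k → Fin r, cnt r y N k w = N := by
    simp_rw [cnt_eq r hr y N k]
    rw [← Finset.card_eq_sum_card_fiberwise (f := fun n => (fun i : Fin k => dg r hr y (n + i.val)))
      (s := range N) (t := Finset.univ) (fun _ _ => Finset.mem_coe.2 (Finset.mem_univ _))]
    simp
  exact_mod_cast h1

end Pool.Agent.Lib.MP_18663b_an
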