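import Pool.Agent.Lib.MP_18663b_an.Count

set_option autoImplicit false

namespace Pool.Agent.Lib.MP_18663b_an

open Finset

lemma numeric_pow (r κ : ℕ) (hr : 2 ≤ r) (hκ : 1 ≤ κ) :
    9 / 7 * (1 / (r : ℝ) ^ κ) ≤ (3 / 4 : ℝ) ^ κ := by
  have hr2 : (2 : ℝ) ≤ r := by exact_mod_cast hr
  have h1 : 1 / (r : ℝ) ^ κ ≤ 1 / (2 : ℝ) ^ κ := by
    apply one_div_le_one_div_of_le (by positivity)
    exact pow_le_pow_left₀ (by norm_num) hr2 κ
  have h2 : (3 / 4 : ℝ) ^ κ = (3 / 2 : ℝ) ^ κ * (1 / (2 : ℝ) ^ κ) := by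
    rw [one_div, ← inv_pow, ← mul_pow]; norm_num
  have h3 : (9 / 7 : ℝ) ≤ (3 / 2 : ℝ) ^ κ := by
    calc (9 / 7 : ℝ) ≤ (3 / 2 : ℝ) ^ 1 := by norm_num
      _ ≤ (3 / 2 : ℝ) ^ κ := pow_le_pow_right₀ (by norm_num) hκ
  rw [h2]
  have h4 : (0 : ℝ) ≤ 1 / (2 : ℝ) ^ κ := by positivity
  calc 9 / 7 * (1 / (r : ℝ) ^ κ) ≤ 9 / 7 * (1 / (2 : ℝ) ^ κ) := by gcongr
    _ ≤ (3 / 2 : ℝ) ^ κ * (1 / (2 : ℝ) ^ κ) := by gcongr

lemma entropy_window (r p N0 ℓ s G k b c m L : ℕ) (y : ℝ) (hr : 2 ≤ r) (hp : 0 < p)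
    (hb : b.Prime) (hodd : Odd b) (hbr : ¬ b ∣ r)
    (hc : c = padicValNat b (r ^ (b - 1) - 1))
    (hℓdef : ℓ = (b - 1) * (b ^ m * L))
    (hℓ : 1 ≤ ℓ) (hdp : p ∣ r ^ ℓ - 1) (hdq : b ^ (c + m) ∣ r ^ ℓ - 1)
    (hpR : 8 * (p : ℝ) ^ 2 ≤ ((r : ℝ) ^ ℓ) ^ 2)
    (hN0 : N0 ≤ ℓ) (hs : 6 ≤ s) (hG : 8 * G ≤ ℓ)
    (hGr : (2 * p * s + 10 * p + 4) * (32 * (r : ℝ) ^ k) ≤ (r : ℝ) ^ G)
    (hbm : 16 * (r : ℝ) ^ k ≤ (b : ℝ) ^ m)
    (hy : |y - 1 / xnew r p N0 (b ^ (c + m)) ℓ s| ≤ 1 / (r : ℝ) ^ (4 * ((s + 4) * ℓ)))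
    (κ : ℕ) (hκ1 : 1 ≤ κ) (hκk : κ ≤ k) :
    1 / 8 * Real.log (4 / 3) * κ ≤ HH r y (3 * ((s + 4) * ℓ)) κ := by
  classical
  set M : ℕ := (s + 4) * ℓ with hM
  set q : ℕ := b ^ (c + m) with hq
  have hq0 : 0 < q := Nat.pow_pos hb.pos
  have hr0 : 0 < r := by omega
  have hrr0 : (0 : ℝ) < (r : ℝ) := by exact_mod_cast hr0
  have hrr1 : (1 : ℝ) ≤ (r : ℝ) := by exact_mod_cast hr0
  have hb0 : (0 : ℝ) < (b : ℝ) := by exact_mod_cast hb.pos
  have hMℓ : M = s * ℓ + 4 * ℓ := by rw [hM]; ring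
  have hsℓ : 6 * ℓ ≤ s * ℓ := Nat.mul_le_mul_right _ (by omega)
  set pos : ℕ × ℕ → ℕ := fun a => 2 * M + ℓ * a.1 + a.2 - N0 with hpos
  set S : Finset (ℕ × ℕ) := (range (s - 1)) ×ˢ (range (ℓ - G)) with hS
  set blk : ℕ → (Fin κ → Fin r) := fun n => (fun i : Fin κ => dg r hr0 y (n + i.val)) with hblk
  set aa : (Fin κ → Fin r) → ℝ := fun w => ((S.filter (fun a => blk (pos a) = w)).card : ℝ) with haa
  set A : ℝ := ((s - 1 : ℕ) : ℝ) * ((ℓ - G : ℕ) : ℝ) with hA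
  have hA0 : 0 < A := by
    have h1 : 0 < s - 1 := by omega
    have h2 : 0 < ℓ - G := by omega
    positivity
  -- aa ≤ cc
  have hac : ∀ w, aa w ≤ (cnt r y (3 * M) κ w : ℝ) := by
    intro w
    rw [haa, cnt_eq r hr0]
    simp only
    norm_cast
    apply Finset.card_le_card_of_injOn pos
    · intro a ha
      rw [Finset.mem_coe, Finset.mem_filter] at ha ⊢
      obtain ⟨ha1, ha2⟩ := ha
      rw [hS, Finset.mem_product, Finset.mem_range, Finset.mem_range] at ha1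
      refine ⟨?_, ha2⟩
      rw [Finset.mem_range, hpos]
      simp only
      have h1 : ℓ * a.1 + ℓ * 2 ≤ ℓ * s := by
        rw [← mul_add]; exact Nat.mul_le_mul_left _ (by omega)
      have h2 : ℓ * s = s * ℓ := mul_comm _ _
      omega
    · intro a ha a' ha' heq
      rw [Finset.mem_coe, Finset.mem_filter] at ha ha'
      have ha1 := ha.1
      have ha1' := ha'.1
      rw [hS, Finset.mem_product, Finset.mem_range, Finset.mem_range] at ha1 ha1'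
      simp only [hpos] at heq
      have h1 : ℓ * a.1 + a.2 = ℓ * a'.1 + a'.2 := by omega
      have h2 : a.1 = a'.1 := by
        have e1 : (ℓ * a.1 + a.2) / ℓ = a.1 := by
          rw [Nat.mul_add_div (by omega), Nat.div_eq_of_lt (by omega), add_zero]
        have e2 : (ℓ * a'.1 + a'.2) / ℓ = a'.1 := by
          rw [Nat.mul_add_div (by omega), Nat.div_eq_of_lt (by omega), add_zero]
        rw [← e1, ← e2, h1]
      have h3 : a.2 = a'.2 := by rw [h2] at h1; omega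
      exact Prod.ext h2 h3
  have hsumA : ∑ w, aa w = A := by
    have h1 : ∑ w : Fin κ → Fin r, (S.filter (fun a => blk (pos a) = w)).card = S.card :=
      (Finset.card_eq_sum_card_fiberwise (f := fun a => blk (pos a))
        (s := S) (t := Finset.univ) (fun _ _ => Finset.mem_coe.2 (Finset.mem_univ _))).symm
    rw [haa, hA]
    simp only
    rw [← Nat.cast_sum, h1, hS, Finset.card_product, Finset.card_range, Finset.card_range]
    push_cast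
    ring
  have hsumC : ∑ w : Fin κ → Fin r, (cnt r y (3 * M) κ w : ℝ) = ((3 * M : ℕ) : ℝ) :=
    sum_cnt r hr0 y (3 * M) κ
  -- error constants
  set ε' : ℝ := 1 / (32 * (r : ℝ) ^ k) with hε'
  have hε'0 : 0 < ε' := by positivity
  have herr : (2 * (p : ℝ) * s + 10 * p + 4) / (r : ℝ) ^ G ≤ ε' := by
    rw [hε', div_le_div_iff₀ (by positivity) (by positivity), one_mul]
    exact hGr
  have hrκ : 1 / (r : ℝ) ^ k ≤ 1 / (r : ℝ) ^ κ := by
    apply one_div_le_one_div_of_le (by positivity)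
    exact pow_le_pow_right₀ hrr1 hκk
  have hsmall : 1 / (r : ℝ) ^ κ + 2 * ε' + 1 / (b : ℝ) ^ m ≤ 9 / 8 * (1 / (r : ℝ) ^ κ) := by
    have h1 : 2 * ε' = 1 / 16 * (1 / (r : ℝ) ^ k) := by rw [hε']; field_simp; norm_num
    have h2 : 1 / (b : ℝ) ^ m ≤ 1 / 16 * (1 / (r : ℝ) ^ k) := by
      calc 1 / (b : ℝ) ^ m ≤ 1 / (16 * (r : ℝ) ^ k) :=
            one_div_le_one_div_of_le (by positivity) hbm
        _ = _ := by field_simp
    linarith
  -- heavy atoms bound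
  have hatom : ∀ w, aa w / A ≤ (3 / 4 : ℝ) ^ κ := by
    intro w
    obtain ⟨α, hα⟩ := block_interval r hr0 y κ w
    have hj : ∀ j ∈ range (s - 1), (((range (ℓ - G)).filter
        (fun n' => blk (pos (j, n')) = w)).card : ℝ) ≤ ℓ * (9 / 8 * (1 / (r : ℝ) ^ κ)) := by
      intro j hj
      rw [Finset.mem_range] at hj
      have h1 : (range (ℓ - G)).filter (fun n' => blk (pos (j, n')) = w) ⊆
          (range ℓ).filter (fun n : ℕ => ∃ z : ℤ,
            α - ε' ≤ (r : ℝ) ^ n / (b : ℝ) ^ (c + m) - z ∧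
            (r : ℝ) ^ n / (b : ℝ) ^ (c + m) - z ≤ α + 1 / (r : ℝ) ^ κ + ε') := by
        intro n' hn'
        rw [Finset.mem_filter, Finset.mem_range] at hn' ⊢
        obtain ⟨hn1, hn2⟩ := hn'
        refine ⟨by omega, ?_⟩
        obtain ⟨z, hz1, hz2⟩ := hα _ ((dg_iff r hr0 y κ w _).2 hn2)
        obtain ⟨z', hz'⟩ := window r p N0 q ℓ s G j n' y hr hp hq0 hℓ hdp hdq (by omega)
          (by omega) hpR (by rw [← hM]; omega) hy
        have hz'' := le_trans hz' herr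
        rw [← hM] at hz''
        simp only [hpos] at hz1 hz2
        have hqc : (q : ℝ) = (b : ℝ) ^ (c + m) := by rw [hq]; push_cast; rfl
        rw [hqc] at hz''
        rw [abs_le] at hz''
        obtain ⟨hz3, hz4⟩ := hz''
        refine ⟨z - z', ?_, ?_⟩
        · push_cast; linarith
        · push_cast; linarith
      have h2 := count_range b r c m L hb hodd hr hbr hc (α - ε') (α + 1 / (r : ℝ) ^ κ + ε')
        (by have : 0 < 1 / (r : ℝ) ^ κ := by positivity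
            linarith)
      rw [← hℓdef] at h2
      calc (((range (ℓ - G)).filter (fun n' => blk (pos (j, n')) = w)).card : ℝ)
          ≤ _ := by exact_mod_cast Finset.card_le_card h1
        _ ≤ _ := h2
        _ = ℓ * (1 / (r : ℝ) ^ κ + 2 * ε' + 1 / (b : ℝ) ^ m) := by ring
        _ ≤ ℓ * (9 / 8 * (1 / (r : ℝ) ^ κ)) := by gcongr
    have h3 : aa w = ∑ j ∈ range (s - 1), (((range (ℓ - G)).filter
        (fun n' => blk (pos (j, n')) = w)).card : ℝ) := by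
      rw [haa]
      simp only
      rw [← Nat.cast_sum]
      congr 1
      rw [hS, Finset.card_filter, Finset.sum_product]
      refine Finset.sum_congr rfl (fun j _ => ?_)
      rw [Finset.card_filter]
    have h4 : aa w ≤ ((s - 1 : ℕ) : ℝ) * (ℓ * (9 / 8 * (1 / (r : ℝ) ^ κ))) := by
      rw [h3]
      calc _ ≤ ∑ j ∈ range (s - 1), (ℓ * (9 / 8 * (1 / (r : ℝ) ^ κ)) : ℝ) :=
            Finset.sum_le_sum hj
        _ = _ := by rw [Finset.sum_const, Finset.card_range, nsmul_eq_mul]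
    have h5 : (7 : ℝ) / 8 * ℓ ≤ ((ℓ - G : ℕ) : ℝ) := by
      rw [Nat.cast_sub (by omega)]
      have : (8 : ℝ) * G ≤ ℓ := by exact_mod_cast hG
      linarith
    rw [div_le_iff₀ hA0]
    refine le_trans h4 ?_
    have h6 := numeric_pow r κ hr hκ1
    have h7 : (0 : ℝ) ≤ ((s - 1 : ℕ) : ℝ) := by positivity
    have h8 : (0 : ℝ) < ℓ := by exact_mod_cast (by omega : 0 < ℓ)
    calc ((s - 1 : ℕ) : ℝ) * (ℓ * (9 / 8 * (1 / (r : ℝ) ^ κ)))
        = ((s - 1 : ℕ) : ℝ) * ((7 / 8 * ℓ) * (9 / 7 * (1 / (r : ℝ) ^ κ))) := by ring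
      _ ≤ ((s - 1 : ℕ) : ℝ) * (((ℓ - G : ℕ) : ℝ) * (3 / 4 : ℝ) ^ κ) := by gcongr
      _ = (3 / 4 : ℝ) ^ κ * A := by rw [hA]; ring
  have hmain := entropy_lower (fun w => (cnt r y (3 * M) κ w : ℝ)) aa ((3 * M : ℕ) : ℝ) A
    ((3 / 4 : ℝ) ^ κ) (fun w => by rw [haa]; positivity) hac hsumC hsumA hA0 hatom
  have hlog : Real.log (1 / (3 / 4 : ℝ) ^ κ) = κ * Real.log (4 / 3) := by
    rw [one_div, ← inv_pow, Real.log_pow]
    norm_num
  rw [hlog] at hmain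
  have hlog0 : 0 < Real.log (4 / 3) := Real.log_pos (by norm_num)
  have hratio : 1 / 8 ≤ A / ((3 * M : ℕ) : ℝ) := by
    have hℓ0 : (0 : ℝ) < ℓ := by exact_mod_cast (by omega : 0 < ℓ)
    have hM0 : (0 : ℝ) < ((3 * M : ℕ) : ℝ) := by
      have : 0 < 3 * M := by omega
      exact_mod_cast this
    rw [le_div_iff₀ hM0, hA]
    have h5 : (7 : ℝ) / 8 * ℓ ≤ ((ℓ - G : ℕ) : ℝ) := by
      rw [Nat.cast_sub (by omega)]
      have : (8 : ℝ) * G ≤ ℓ := by exact_mod_cast hG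
      linarith
    have h6 : ((s - 1 : ℕ) : ℝ) = s - 1 := by rw [Nat.cast_sub (by omega)]; simp
    have h7 : (6 : ℝ) ≤ s := by exact_mod_cast hs
    rw [h6, hM]
    push_cast
    have h8 : (s - 1 : ℝ) * (7 / 8 * ℓ) ≤ (s - 1 : ℝ) * ((ℓ - G : ℕ) : ℝ) := by
      apply mul_le_mul_of_nonneg_left h5; linarith
    nlinarith
  calc 1 / 8 * Real.log (4 / 3) * κ = 1 / 8 * (κ * Real.log (4 / 3)) := by ring
    _ ≤ A / ((3 * M : ℕ) : ℝ) * (κ * Real.log (4 / 3)) := by gcongr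
    _ ≤ _ := hmain

end Pool.Agent.Lib.MP_18663b_an
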