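import Pool.Agent.Lib.MP_18663b_an.Entropy

set_option autoImplicit false

namespace Pool.Agent.Lib.MP_18663b_an

open Finset

/-- State of the inductive construction: the current approximation is `p / r^N`, and the limit
will lie in `[p / r^N, p / r^N + τ]`. -/
structure St where
  p : ℕ
  N : ℕ
  τ : ℝ

/-- value of a state -/
noncomputable def St.x (r : ℕ) (S : St) : ℝ := (S.p : ℝ) / (r : ℝ) ^ S.N

/-- validity of a state -/
def St.Valid (r : ℕ) (S : St) : Prop :=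
  0 < S.p ∧ Nat.Coprime S.p r ∧ 1 ≤ S.x r ∧ 0 < S.τ

/-- the property of one stage -/
def Step (r k : ℕ) (S T : St) : Prop :=
  S.x r ≤ T.x r ∧ T.x r + T.τ ≤ S.x r + S.τ ∧ (k + 1) * S.N ≤ T.N ∧ k + 1 ≤ T.N ∧ S.N < T.N ∧
  (∀ x : ℝ, T.x r ≤ x → x ≤ T.x r + T.τ → ∀ n0 : ℕ, S.N ≤ n0 → n0 ≤ T.N →
    (k + 1) * nz r x S.N n0 ≤ n0) ∧
  (∀ x : ℝ, T.x r ≤ x → x ≤ T.x r + T.τ → ∃ N : ℕ, k ≤ N ∧ ∀ κ : ℕ, 1 ≤ κ → κ ≤ k →
    1 / 8 * Real.log (4 / 3) * κ ≤ HH r x⁻¹ N κ)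

lemma pow_totient_dvd (r p L : ℕ) (hr : 2 ≤ r) (hcop : Nat.Coprime r p) :
    p ∣ r ^ (Nat.totient p * L) - 1 := by
  have h1 : r ^ (Nat.totient p) ≡ 1 [MOD p] := Nat.ModEq.pow_totient hcop
  have h2 : r ^ (Nat.totient p * L) ≡ 1 [MOD p] := by
    rw [pow_mul]
    simpa using h1.pow L
  have h3 : 1 ≤ r ^ (Nat.totient p * L) := Nat.one_le_pow _ _ (by omega)
  exact (Nat.modEq_iff_dvd' h3).1 h2.symm

lemma le_pow_self (r : ℕ) (hr : 2 ≤ r) (n : ℕ) : (n : ℝ) ≤ (r : ℝ) ^ n := by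
  have : n < r ^ n := Nat.lt_pow_self (by omega)
  exact_mod_cast this.le

lemma exists_step (r k : ℕ) (hr : 2 ≤ r) (S : St) (hS : S.Valid r) :
    ∃ T : St, T.Valid r ∧ Step r k S T := by
  obtain ⟨hp, hcop, hx1, hτ⟩ := hS
  obtain ⟨p, N0, τ⟩ := S
  simp only at hp hcop hτ
  unfold St.x at hx1
  simp only at hx1
  have hr0 : (0 : ℝ) < (r : ℝ) := by exact_mod_cast (by omega : 0 < r)
  have hr1 : (1 : ℝ) ≤ (r : ℝ) := by exact_mod_cast (by omega : 1 ≤ r)
  -- the prime b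
  obtain ⟨b, hbr', hb⟩ := Nat.exists_infinite_primes (r + 1)
  have hodd : Odd b := hb.odd_of_ne_two (by omega)
  have hbr : ¬ b ∣ r := fun h => by
    have := Nat.le_of_dvd (by omega) h
    omega
  have hb0 : 0 < b := hb.pos
  have hb2 : 2 ≤ b := hb.two_le
  set c : ℕ := padicValNat b (r ^ (b - 1) - 1) with hc
  -- m
  set m : ℕ := 16 * r ^ k with hm
  have hbm : 16 * (r : ℝ) ^ k ≤ (b : ℝ) ^ m := by
    have := le_pow_self b hb2 m
    rw [hm] at this ⊢
    push_cast at this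
    exact this
  set q : ℕ := b ^ (c + m) with hq
  have hq0 : 0 < q := Nat.pow_pos hb0
  have hcopb : Nat.Coprime r b := ((Nat.Prime.coprime_iff_not_dvd hb).2 hbr).symm
  have hcopq : Nat.Coprime r q := Nat.Coprime.pow_right _ hcopb
  set s : ℕ := 6 * (k + 1) with hs
  set G : ℕ := (2 * p * s + 10 * p + 4) * (32 * r ^ k) with hG
  set D0 : ℕ := 4 * r * p ^ 2 with hD0
  obtain ⟨t0, ht0⟩ := exists_nat_ge (4 * (p : ℝ) ^ 2 / τ)
  obtain ⟨t1, ht1⟩ := exists_nat_ge (2 / τ)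
  set t : ℕ := 8 * G + 2 * (k + 1) * D0 + 8 * p ^ 2 + N0 + (k + 1) * N0 + (k + 1) + t0 + t1 + 3
    with ht
  set L : ℕ := Nat.totient p * Nat.totient q * t with hL
  set ℓ : ℕ := (b - 1) * (b ^ m * L) with hℓ
  have htp : 0 < Nat.totient p := Nat.totient_pos.2 hp
  have htq : 0 < Nat.totient q := Nat.totient_pos.2 hq0
  have hb1 : 0 < b - 1 := by omega
  have htℓ : t ≤ ℓ := by
    have h1 : t ≤ L := by rw [hL]; exact Nat.le_mul_of_pos_left _ (Nat.mul_pos htp htq)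
    have h2 : L ≤ b ^ m * L := Nat.le_mul_of_pos_left _ (Nat.pow_pos hb0)
    have h3 : b ^ m * L ≤ ℓ := by rw [hℓ]; exact Nat.le_mul_of_pos_left _ hb1
    omega
  have hℓ1 : 1 ≤ ℓ := by omega
  have hdp : p ∣ r ^ ℓ - 1 := by
    have h1 : ℓ = Nat.totient p * ((b - 1) * (b ^ m * (Nat.totient q * t))) := by
      rw [hℓ, hL]; ring
    rw [h1]; exact pow_totient_dvd r p _ hr hcop.symm
  have hdq : q ∣ r ^ ℓ - 1 := by
    have h1 : ℓ = Nat.totient q * ((b - 1) * (b ^ m * (Nat.totient p * t))) := by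
      rw [hℓ, hL]; ring
    rw [h1]; exact pow_totient_dvd r q _ hr hcopq
  have hs6 : 6 ≤ s := by rw [hs]; omega
  set M : ℕ := (s + 4) * ℓ with hM
  have hMℓ : M = s * ℓ + 4 * ℓ := by rw [hM]; ring
  have hℓr : (ℓ : ℝ) ≤ (r : ℝ) ^ ℓ := le_pow_self r hr ℓ
  have htℓr : (t : ℝ) ≤ (ℓ : ℝ) := by exact_mod_cast htℓ
  have hx'eq := xnew_eq r p N0 q ℓ s hr (by omega)
  set N1 : ℕ := N0 + M + (s - 1) * ℓ with hN1
  have hpR : 8 * (p : ℝ) ^ 2 ≤ ((r : ℝ) ^ ℓ) ^ 2 := by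
    have h1 : ((8 * p ^ 2 : ℕ) : ℝ) ≤ t := by
      have : 8 * p ^ 2 ≤ t := by omega
      exact_mod_cast this
    push_cast at h1
    have h2 : (1 : ℝ) ≤ (r : ℝ) ^ ℓ := one_le_pow₀ hr1
    have h3 : (r : ℝ) ^ ℓ * 1 ≤ (r : ℝ) ^ ℓ * (r : ℝ) ^ ℓ :=
      mul_le_mul_of_nonneg_left h2 (by linarith)
    have h4 : ((r : ℝ) ^ ℓ) ^ 2 = (r : ℝ) ^ ℓ * (r : ℝ) ^ ℓ := sq _
    linarith
  have hGr : (2 * (p : ℝ) * s + 10 * p + 4) * (32 * (r : ℝ) ^ k) ≤ (r : ℝ) ^ G := by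
    have := le_pow_self r hr G
    rw [hG] at this ⊢
    push_cast at this
    exact this
  have hD0r : 4 * (r : ℝ) * (p : ℝ) ^ 2 ≤ (r : ℝ) ^ D0 := by
    have := le_pow_self r hr D0
    rw [hD0] at this ⊢
    push_cast at this
    exact this
  -- the new state
  have hη0 : 0 ≤ eta r p q ℓ s := by
    unfold eta
    have hR2 : (2 : ℝ) ≤ (r : ℝ) ^ ℓ := by
      calc (2 : ℝ) ≤ (r : ℝ) := by exact_mod_cast hr
        _ = (r : ℝ) ^ 1 := (pow_one _).symm
        _ ≤ (r : ℝ) ^ ℓ := pow_le_pow_right₀ hr1 hℓ1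
    have := Vsum_nonneg ((r : ℝ) ^ ℓ) s hR2
    positivity
  have hp0 : (0 : ℝ) < (p : ℝ) := by exact_mod_cast hp
  have hxle : (p : ℝ) / (r : ℝ) ^ N0 ≤ xnew r p N0 q ℓ s := by
    unfold xnew
    have : 0 ≤ (p : ℝ) * eta r p q ℓ s := by positivity
    have h2 : (0 : ℝ) ≤ (p : ℝ) / (r : ℝ) ^ N0 := by positivity
    exact le_mul_of_one_le_right h2 (by linarith)
  have hxnew1 : 1 ≤ xnew r p N0 q ℓ s := le_trans hx1 hxle
  have hxupper : xnew r p N0 q ℓ s ≤ (p : ℝ) / (r : ℝ) ^ N0 + τ / 2 := by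
    have hR2 : (2 : ℝ) ≤ (r : ℝ) ^ ℓ := by
      calc (2 : ℝ) ≤ (r : ℝ) := by exact_mod_cast hr
        _ = (r : ℝ) ^ 1 := (pow_one _).symm
        _ ≤ (r : ℝ) ^ ℓ := pow_le_pow_right₀ hr1 hℓ1
    have hV2 := Vsum_le ((r : ℝ) ^ ℓ) s hR2
    have hpU := two_p_U_le r p q ℓ hr hp hq0 hdp hdq
    have hp1 : (1 : ℝ) ≤ (p : ℝ) := by exact_mod_cast hp
    have hUle : (Ufun r p q ℓ : ℝ) ≤ (r : ℝ) ^ ℓ - 1 := by
      have h1 : (Ufun r p q ℓ : ℝ) ≤ p * (Ufun r p q ℓ : ℝ) :=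
        le_mul_of_one_le_left (by positivity) hp1
      linarith
    have hηle : eta r p q ℓ s ≤ 2 * (r : ℝ) ^ ℓ / (r : ℝ) ^ (2 * ℓ) := by
      unfold eta
      have hpow : (r : ℝ) ^ (2 * ℓ) ≤ (r : ℝ) ^ ((s + 4) * ℓ) := by
        apply pow_le_pow_right₀ hr1
        apply Nat.mul_le_mul_right; omega
      have hnum : (Ufun r p q ℓ : ℝ) + Vsum ((r : ℝ) ^ ℓ) s ≤ 2 * (r : ℝ) ^ ℓ := by linarith
      have := Vsum_nonneg ((r : ℝ) ^ ℓ) s hR2
      gcongr
    have hηle2 : eta r p q ℓ s ≤ 2 / (r : ℝ) ^ ℓ := by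
      have : 2 * (r : ℝ) ^ ℓ / (r : ℝ) ^ (2 * ℓ) = 2 / (r : ℝ) ^ ℓ := by
        have e1 : (r : ℝ) ^ (2 * ℓ) = (r : ℝ) ^ ℓ * (r : ℝ) ^ ℓ := by
          rw [← pow_add]; congr 1; ring
        rw [e1]; field_simp
      rwa [this] at hηle
    have hτℓ : 4 * (p : ℝ) ^ 2 ≤ τ * (r : ℝ) ^ ℓ := by
      have h1 : (t0 : ℝ) ≤ t := by
        have : t0 ≤ t := by omega
        exact_mod_cast this
      have h2 : 4 * (p : ℝ) ^ 2 / τ ≤ (r : ℝ) ^ ℓ := by linarith
      rw [div_le_iff₀ hτ] at h2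
      linarith
    unfold xnew
    have h3 : (p : ℝ) / (r : ℝ) ^ N0 * (1 + p * eta r p q ℓ s)
        = (p : ℝ) / (r : ℝ) ^ N0 + p ^ 2 * eta r p q ℓ s / (r : ℝ) ^ N0 := by
      field_simp
    rw [h3]
    have h4 : (p : ℝ) ^ 2 * eta r p q ℓ s / (r : ℝ) ^ N0 ≤ p ^ 2 * eta r p q ℓ s :=
      div_le_self (by positivity) (one_le_pow₀ hr1)
    have h5 : (p : ℝ) ^ 2 * eta r p q ℓ s ≤ p ^ 2 * (2 / (r : ℝ) ^ ℓ) := by gcongr
    have h6 : (p : ℝ) ^ 2 * (2 / (r : ℝ) ^ ℓ) ≤ τ / 2 := by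
      rw [mul_div_assoc', div_le_iff₀ (by positivity)]
      linarith
    linarith
  have hτ' : 1 / (r : ℝ) ^ (4 * M) ≤ τ / 2 := by
    have h1 : (t1 : ℝ) ≤ t := by
      have : t1 ≤ t := by omega
      exact_mod_cast this
    have h2 : 2 / τ ≤ (r : ℝ) ^ ℓ := by linarith
    have h3 : (r : ℝ) ^ ℓ ≤ (r : ℝ) ^ (4 * M) := by
      apply pow_le_pow_right₀ hr1; omega
    rw [div_le_iff₀ (by positivity)]
    rw [div_le_iff₀ hτ] at h2
    have h4 : (r : ℝ) ^ ℓ * τ ≤ (r : ℝ) ^ (4 * M) * τ := by gcongr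
    linarith
  refine ⟨⟨pnew r p q ℓ s, N1, 1 / (r : ℝ) ^ (4 * M)⟩, ⟨?_, ?_, ?_, ?_⟩, ?_, ?_, ?_, ?_, ?_, ?_, ?_⟩
  · -- 0 < pnew
    simp only
    unfold pnew
    have : 0 < p * r ^ ((s + 4) * ℓ + (s - 1) * ℓ) := Nat.mul_pos hp (Nat.pow_pos (by omega))
    omega
  · exact pnew_coprime r p q ℓ s hcop hℓ1 (by omega)
  · unfold St.x
    simp only
    rw [← hx'eq]
    exact hxnew1
  · simp only; positivity
  · unfold St.x
    simp only
    rw [← hx'eq]
    exact hxle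
  · unfold St.x
    simp only
    rw [← hx'eq]
    linarith
  · simp only
    have : (k + 1) * N0 ≤ t := by omega
    omega
  · simp only; omega
  · simp only; omega
  · intro x hx1' hx2' n0 hn0 hn0'
    unfold St.x at hx1' hx2'
    simp only at hx1' hx2' hn0' hn0 ⊢
    rw [← hx'eq] at hx1' hx2'
    refine nz_bound r p N0 q ℓ s D0 (k + 1) n0 x hr hp hq0 hℓ1 hdp hdq hD0r (by omega) (by omega)
      (by omega) (by omega) ?_ hx1' hx2'
    rw [← hM]
    exact hn0'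
  · intro x hx1' hx2'
    unfold St.x at hx1' hx2'
    simp only at hx1' hx2'
    rw [← hx'eq] at hx1' hx2'
    refine ⟨3 * M, by omega, fun κ hκ1 hκk => ?_⟩
    refine entropy_window r p N0 ℓ s G k b c m L x⁻¹ hr hp hb hodd hbr hc hℓ hℓ1 hdp hdq hpR
      (by omega) hs6 (by omega) hGr hbm ?_ κ hκ1 hκk
    -- |x⁻¹ - 1/xnew| ≤ ...
    have hx0 : 0 < x := by linarith
    have hxn0 : 0 < xnew r p N0 q ℓ s := by linarith
    rw [← hM, inv_eq_one_div, div_sub_div _ _ hx0.ne' hxn0.ne', abs_div, one_mul, mul_one]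
    have h1 : |xnew r p N0 q ℓ s - x| ≤ 1 / (r : ℝ) ^ (4 * M) := by
      rw [abs_le]; constructor <;> linarith
    have h2 : 1 ≤ |x * xnew r p N0 q ℓ s| := by
      rw [abs_of_pos (mul_pos hx0 hxn0)]
      exact one_le_mul_of_one_le_of_one_le (by linarith) hxnew1
    calc |xnew r p N0 q ℓ s - x| / |x * xnew r p N0 q ℓ s| ≤ |xnew r p N0 q ℓ s - x| / 1 := by
          gcongr
      _ ≤ _ := by rw [div_one]; exact h1

lemma exists_seq (r : ℕ) (hr : 2 ≤ r) :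
    ∃ st : ℕ → St, (∀ k, (st k).Valid r) ∧ ∀ k, Step r k (st k) (st (k + 1)) := by
  have h0 : St.Valid r ⟨1, 0, 1⟩ := by
    refine ⟨by norm_num, by simp, ?_, by norm_num⟩
    unfold St.x; simp
  choose! f hf1 hf2 using fun k S hS => exists_step r k hr S hS
  let st : ℕ → St := fun k => Nat.rec ⟨1, 0, 1⟩ (fun k S => f k S) k
  have hv : ∀ k, (st k).Valid r := by
    intro k
    induction k with
    | zero => exact h0
    | succ k ih => exact hf1 k _ ih
  exact ⟨st, hv, fun k => hf2 k _ (hv k)⟩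

lemma nz_split (r : ℕ) (x : ℝ) (a b n : ℕ) :
    nz r x a n ≤ nz r x a b + nz r x b n := by
  unfold nz
  refine le_trans (Finset.card_le_card ?_) (Finset.card_union_le _ _)
  intro k hk
  rw [Finset.mem_union, Finset.mem_filter, Finset.mem_filter, Finset.mem_range, Finset.mem_range]
  rw [Finset.mem_filter, Finset.mem_range] at hk
  obtain ⟨h1, h2, h3⟩ := hk
  rcases Nat.lt_or_ge k b with h | h
  · left; exact ⟨h, h2, h3⟩
  · right; exact ⟨h1, h, h3⟩

lemma nz_le (r : ℕ) (x : ℝ) (a n : ℕ) : nz r x a n ≤ n := by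
  unfold nz
  calc _ ≤ (range n).card := Finset.card_filter_le _ _
    _ = n := Finset.card_range n

/-- The main construction: a real number `x ≥ 1` whose nonzero base-`r` digits have density zero,
while the block entropies of `1/x` are bounded below along infinitely many lengths. -/
theorem exists_real (r : ℕ) (hr : 2 ≤ r) :
    ∃ x : ℝ, 1 ≤ x ∧
      (∀ k : ℕ, ∃ n1 : ℕ, ∀ n : ℕ, n1 ≤ n → (k + 1) * nz r x 0 n ≤ 3 * n) ∧
      (∀ K N0 : ℕ, ∃ N : ℕ, N0 ≤ N ∧ ∀ κ : ℕ, 1 ≤ κ → κ ≤ K →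
        1 / 8 * Real.log (4 / 3) * κ ≤ HH r x⁻¹ N κ) := by
  obtain ⟨st, hv, hstep⟩ := exists_seq r hr
  have hmono : Monotone (fun k => (st k).x r) := monotone_nat_of_le_succ (fun k => (hstep k).1)
  have hanti : Antitone (fun k => (st k).x r + (st k).τ) :=
    antitone_nat_of_succ_le (fun k => (hstep k).2.1)
  have hN : StrictMono (fun k => (st k).N) := strictMono_nat_of_lt_succ (fun k => (hstep k).2.2.2.2.1)
  have hle : ∀ i j, (st i).x r ≤ (st j).x r + (st j).τ := by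
    intro i j
    have h1 : (st i).x r ≤ (st (max i j)).x r := hmono (le_max_left i j)
    have h2 : (st (max i j)).x r + (st (max i j)).τ ≤ (st j).x r + (st j).τ :=
      hanti (le_max_right i j)
    have h3 := (hv (max i j)).2.2.2
    linarith
  have hbdd : BddAbove (Set.range (fun k => (st k).x r)) :=
    ⟨(st 0).x r + (st 0).τ, by rintro _ ⟨i, rfl⟩; exact hle i 0⟩
  set x : ℝ := ⨆ k, (st k).x r with hx
  have hx1 : ∀ k, (st k).x r ≤ x := fun k => le_ciSup hbdd k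
  have hx2 : ∀ k, x ≤ (st k).x r + (st k).τ := fun k => ciSup_le (fun i => hle i k)
  refine ⟨x, le_trans (hv 0).2.2.1 (hx1 0), ?_, ?_⟩
  · intro k0
    refine ⟨(st (k0 + 1)).N, fun n hn => ?_⟩
    -- find the stage
    obtain ⟨k, hk0, hk1, hk2⟩ : ∃ k, k0 ≤ k ∧ (st (k + 1)).N ≤ n ∧ n ≤ (st (k + 2)).N := by
      have hex : ∃ j, n ≤ (st (k0 + j + 2)).N := by
        refine ⟨n, ?_⟩
        have h1 : k0 + n + 2 ≤ (st (k0 + n + 2)).N := hN.id_le (k0 + n + 2)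
        omega
      classical
      set j := Nat.find hex with hj
      have hj1 : n ≤ (st (k0 + j + 2)).N := Nat.find_spec hex
      refine ⟨k0 + j, by omega, ?_, hj1⟩
      rcases Nat.eq_zero_or_pos j with h | h
      · rw [h]; exact hn
      · have h2 := Nat.find_min hex (show j - 1 < j by omega)
        have h3 : k0 + (j - 1) + 2 = k0 + j + 1 := by omega
        rw [h3] at h2
        omega
    obtain ⟨_, _, hs1, _, hs2, hs3, _⟩ := hstep k
    obtain ⟨_, _, _, _, hs2', hs3', _⟩ := hstep (k + 1)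
    have h1 : nz r x 0 n ≤ (st k).N + (nz r x (st k).N (st (k + 1)).N
        + nz r x (st (k + 1)).N n) := by
      calc nz r x 0 n ≤ nz r x 0 (st k).N + nz r x (st k).N n := nz_split _ _ _ _ _
        _ ≤ _ := Nat.add_le_add (nz_le _ _ _ _) (nz_split _ _ _ _ _)
    have h2 := hs3 x (hx1 _) (hx2 _) (st (k + 1)).N hs2.le le_rfl
    have h3 := hs3' x (hx1 _) (hx2 _) n hk1 hk2
    have h4 : (k0 + 1) * nz r x 0 n ≤ (k + 1) * nz r x 0 n := Nat.mul_le_mul_right _ (by omega)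
    have h5 : (k + 1) * nz r x 0 n ≤ (k + 1) * ((st k).N + (nz r x (st k).N (st (k + 1)).N
        + nz r x (st (k + 1)).N n)) := Nat.mul_le_mul_left _ h1
    have h6 : (k + 1) * nz r x (st (k + 1)).N n ≤ (k + 1 + 1) * nz r x (st (k + 1)).N n :=
      Nat.mul_le_mul_right _ (by omega)
    rw [mul_add, mul_add] at h5
    omega
  · intro K N0
    obtain ⟨_, _, _, _, _, _, h⟩ := hstep (K + N0)
    obtain ⟨N, hN1, hN2⟩ := h x (hx1 _) (hx2 _)
    exact ⟨N, by omega, fun κ h1 h2 => hN2 κ h1 (by omega)⟩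

/-- the frequency of nonzero digits tends to zero -/
lemma tendsto_nz (r : ℕ) (x : ℝ)
    (h : ∀ k : ℕ, ∃ n1 : ℕ, ∀ n : ℕ, n1 ≤ n → (k + 1) * nz r x 0 n ≤ 3 * n) :
    Filter.Tendsto (fun n : ℕ => (nz r x 0 n : ℝ) / n) Filter.atTop (nhds 0) := by
  rw [Metric.tendsto_atTop]
  intro ε hε
  obtain ⟨k, hk⟩ := exists_nat_gt (3 / ε)
  obtain ⟨n1, hn1⟩ := h k
  refine ⟨max n1 1, fun n hn => ?_⟩
  have h1 := hn1 n (le_trans (le_max_left _ _) hn)
  have h2 : 1 ≤ n := le_trans (le_max_right _ _) hn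
  have hn0 : (0 : ℝ) < n := by exact_mod_cast h2
  rw [Real.dist_eq, sub_zero, abs_of_nonneg (by positivity), div_lt_iff₀ hn0]
  have h3 : ((k : ℝ) + 1) * nz r x 0 n ≤ 3 * n := by exact_mod_cast h1
  rw [div_lt_iff₀ hε] at hk
  by_contra hcon
  push Not at hcon
  have h4 : (k : ℝ) * (ε * n) ≤ k * nz r x 0 n := mul_le_mul_of_nonneg_left hcon (by positivity)
  have h5 : 3 * (n : ℝ) < k * ε * n := mul_lt_mul_of_pos_right hk hn0
  have h6 : (0 : ℝ) ≤ nz r x 0 n := by positivity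
  linarith

/-- the one-block empirical entropy tends to zero when nonzero digits have density zero -/
lemma tendsto_HH (r : ℕ) (hr : 2 ≤ r) (x : ℝ)
    (h : Filter.Tendsto (fun n : ℕ => (nz r x 0 n : ℝ) / n) Filter.atTop (nhds 0)) :
    Filter.Tendsto (fun n : ℕ => HH r x n 1) Filter.atTop (nhds 0) := by
  have key : ∀ w : Fin 1 → Fin r, Filter.Tendsto
      (fun n : ℕ => Real.negMulLog ((cnt r x n 1 w : ℝ) / (n : ℝ))) Filter.atTop (nhds 0) := by
    intro w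
    by_cases hw : (w 0 : ℕ) = 0
    · -- frequency tends to one
      have h1 : Filter.Tendsto (fun n : ℕ => (cnt r x n 1 w : ℝ) / (n : ℝ)) Filter.atTop
          (nhds 1) := by
        have h2 : Filter.Tendsto (fun n : ℕ => 1 - (nz r x 0 n : ℝ) / n) Filter.atTop
            (nhds (1 - 0)) := h.const_sub 1
        rw [sub_zero] at h2
        refine h2.congr' ?_
        filter_upwards [Filter.eventually_ge_atTop 1] with n hn
        have hn0 : (0 : ℝ) < n := by exact_mod_cast hn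
        have h3 : nz r x 0 n + cnt r x n 1 w = n := by
          unfold nz cnt
          have := Finset.card_filter_add_card_filter_not (s := range n)
            (fun m => ⌊(r : ℝ) ^ (m + 1) * x⌋ % (r : ℤ) ≠ 0)
          rw [Finset.card_range] at this
          refine Eq.trans ?_ this
          congr 2
          · apply Finset.filter_congr
            intro m _
            simp
          · apply Finset.filter_congr
            intro m _
            simp [hw]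
        have h4 : (nz r x 0 n : ℝ) + cnt r x n 1 w = n := by exact_mod_cast h3
        field_simp
        linarith
      have h5 := (Real.continuous_negMulLog.tendsto 1).comp h1
      rw [Real.negMulLog_one] at h5
      exact h5
    · have h1 : Filter.Tendsto (fun n : ℕ => (cnt r x n 1 w : ℝ) / (n : ℝ)) Filter.atTop
          (nhds 0) := by
        refine squeeze_zero (fun n => by positivity) (fun n => ?_) h
        have h3 : cnt r x n 1 w ≤ nz r x 0 n := by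
          unfold nz cnt
          apply Finset.card_le_card
          intro m hm
          rw [Finset.mem_filter] at hm ⊢
          refine ⟨hm.1, Nat.zero_le _, ?_⟩
          have h4 := hm.2 0
          simp only [Fin.val_zero, add_zero] at h4
          rw [h4]
          exact_mod_cast hw
        have h4 : (cnt r x n 1 w : ℝ) ≤ nz r x 0 n := by exact_mod_cast h3
        gcongr
      have h5 := (Real.continuous_negMulLog.tendsto 0).comp h1
      rw [Real.negMulLog_zero] at h5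
      exact h5
  have := tendsto_finsetSum (Finset.univ : Finset (Fin 1 → Fin r)) (fun w _ => key w)
  simpa [HH] using this

/-- Determinism in base `r`, in the entropy form of the frozen statement. -/
def Det (r : ℕ) (y : ℝ) : Prop :=
  ∀ ε : ℝ, 0 < ε → ∃ K : ℕ, ∃ N₀ : ℕ, ∀ N : ℕ, N₀ ≤ N →
    ∃ k : ℕ, 1 ≤ k ∧ k ≤ K ∧ HH r y N k / (k : ℝ) < ε

theorem exists_counterexample (r : ℕ) (hr : 2 ≤ r) :
    ∃ x : ℝ, x ≠ 0 ∧ Det r x ∧ ¬ Det r x⁻¹ := by
  obtain ⟨x, hx1, hx2, hx3⟩ := exists_real r hr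
  refine ⟨x, by linarith, ?_, ?_⟩
  · intro ε hε
    have h1 := tendsto_HH r hr x (tendsto_nz r x hx2)
    have h2 := (h1.eventually (gt_mem_nhds hε))
    obtain ⟨N₀, hN₀⟩ := Filter.eventually_atTop.1 h2
    exact ⟨1, N₀, fun N hN => ⟨1, le_rfl, le_rfl, by simpa using hN₀ N hN⟩⟩
  · intro hD
    have hlog : 0 < Real.log (4 / 3) := Real.log_pos (by norm_num)
    obtain ⟨K, N₀, h⟩ := hD (1 / 8 * Real.log (4 / 3)) (by positivity)
    obtain ⟨N, hN1, hN2⟩ := hx3 K N₀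
    obtain ⟨k, hk1, hk2, hk3⟩ := h N hN1
    have h1 := hN2 k hk1 hk2
    have hk0 : (0 : ℝ) < k := by exact_mod_cast hk1
    rw [div_lt_iff₀ hk0] at hk3
    linarith

end Pool.Agent.Lib.MP_18663b_an
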