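import Pool.Agent.Lib.MP_18663b_an.Window

set_option autoImplicit false

namespace Pool.Agent.Lib.MP_18663b_an

open Finset

/-- the numerator of the next approximation -/
def pnew (r p q ℓ s : ℕ) : ℕ :=
  p * r ^ ((s + 4) * ℓ + (s - 1) * ℓ) +
    p ^ 2 * (Ufun r p q ℓ * (r ^ ℓ) ^ (s - 1) + ∑ i ∈ range s, (r ^ ℓ) ^ i)

lemma Vsum_mul (R : ℝ) (s : ℕ) (hR : 0 < R) (hs : 1 ≤ s) :
    R ^ (s - 1) * Vsum R s = ∑ i ∈ range s, R ^ i := by
  unfold Vsum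
  rw [Finset.mul_sum, ← Finset.sum_range_reflect (fun i => R ^ i)]
  refine Finset.sum_congr rfl (fun i hi => ?_)
  have h1 : i < s := Finset.mem_range.1 hi
  rw [inv_pow, ← div_eq_mul_inv, div_eq_iff (by positivity), ← pow_add]
  congr 1
  omega

lemma xnew_eq (r p N0 q ℓ s : ℕ) (hr : 2 ≤ r) (hs : 1 ≤ s) :
    xnew r p N0 q ℓ s = (pnew r p q ℓ s : ℝ) / (r : ℝ) ^ (N0 + (s + 4) * ℓ + (s - 1) * ℓ) := by
  have hr0 : (0 : ℝ) < r := by positivity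
  have hV := Vsum_mul ((r : ℝ) ^ ℓ) s (by positivity) hs
  unfold xnew eta pnew
  push_cast
  rw [← hV, pow_add, pow_add, pow_add]
  have h2 : (r : ℝ) ^ ((s - 1) * ℓ) = ((r : ℝ) ^ ℓ) ^ (s - 1) := by rw [← pow_mul, mul_comm]
  rw [h2]
  field_simp

lemma pnew_coprime (r p q ℓ s : ℕ) (hcop : Nat.Coprime p r) (hℓ : 1 ≤ ℓ) (hs : 2 ≤ s) :
    Nat.Coprime (pnew r p q ℓ s) r := by
  obtain ⟨s', rfl⟩ : ∃ s', s = s' + 2 := ⟨s - 2, by omega⟩
  obtain ⟨ℓ', rfl⟩ : ∃ ℓ', ℓ = ℓ' + 1 := ⟨ℓ - 1, by omega⟩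
  have h1 : pnew r p q (ℓ' + 1) (s' + 2) = p ^ 2 + r * (p * r ^ ((s' + 2 + 4) * (ℓ' + 1) + (s' + 1) * (ℓ' + 1) - 1) +
    p ^ 2 * (Ufun r p q (ℓ' + 1) * (r ^ (ℓ' + 1)) ^ s' * r ^ ℓ' + r ^ ℓ' * ∑ i ∈ range (s' + 1), (r ^ (ℓ' + 1)) ^ i)) := by
    unfold pnew
    rw [Finset.sum_range_succ']
    have h2 : s' + 2 - 1 = s' + 1 := by omega
    rw [h2]
    have h3 : (s' + 2 + 4) * (ℓ' + 1) + (s' + 1) * (ℓ' + 1)
        = ((s' + 2 + 4) * (ℓ' + 1) + (s' + 1) * (ℓ' + 1) - 1) + 1 := by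
      have : 1 ≤ (s' + 2 + 4) * (ℓ' + 1) := Nat.one_le_iff_ne_zero.2 (by positivity)
      omega
    rw [h3, pow_succ r]
    simp only [Nat.add_sub_cancel]
    have h4 : ∑ i ∈ range (s' + 1), (r ^ (ℓ' + 1)) ^ (i + 1)
        = r * (r ^ ℓ' * ∑ i ∈ range (s' + 1), (r ^ (ℓ' + 1)) ^ i) := by
      rw [Finset.mul_sum, Finset.mul_sum]
      refine Finset.sum_congr rfl (fun i _ => ?_)
      ring
    rw [h4]
    ring
  rw [h1]
  rw [Nat.coprime_add_mul_left_left]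
  exact Nat.Coprime.pow_left 2 hcop

/-- quiet positions of `x` -/
lemma quiet (r p N0 q ℓ s D0 n : ℕ) (x : ℝ) (hr : 2 ≤ r) (hp : 0 < p) (hq : 0 < q)
    (hℓ : 1 ≤ ℓ) (hdp : p ∣ r ^ ℓ - 1) (hdq : q ∣ r ^ ℓ - 1)
    (hD0 : 4 * (r : ℝ) * (p : ℝ) ^ 2 ≤ (r : ℝ) ^ D0)
    (hN0 : N0 ≤ n) (hn3 : n ≤ 3 * ((s + 4) * ℓ)) (hM3 : 3 ≤ (s + 4) * ℓ)
    (hcase : n + ℓ + D0 ≤ N0 + (s + 4) * ℓ ∨
      ∃ j n', n = N0 + (s + 4) * ℓ + ℓ * j + n' ∧ n' + D0 ≤ ℓ ∧ j + 1 ≤ s)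
    (hx1 : xnew r p N0 q ℓ s ≤ x)
    (hx2 : x ≤ xnew r p N0 q ℓ s + 1 / (r : ℝ) ^ (4 * ((s + 4) * ℓ))) :
    ⌊(r : ℝ) ^ (n + 1) * x⌋ % (r : ℤ) = 0 := by
  set M : ℕ := (s + 4) * ℓ with hM
  set rr : ℝ := (r : ℝ) with hrr
  set R : ℝ := rr ^ ℓ with hR
  set U : ℕ := Ufun r p q ℓ with hU
  set V : ℝ := Vsum R s with hV
  have hrr2 : (2 : ℝ) ≤ rr := by rw [hrr]; exact_mod_cast hr
  have hrr0 : (0 : ℝ) < rr := by linarith
  have hrr1 : (1 : ℝ) ≤ rr := by linarith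
  have hR2 : (2 : ℝ) ≤ R := by
    calc (2 : ℝ) ≤ rr := hrr2
      _ = rr ^ 1 := (pow_one _).symm
      _ ≤ rr ^ ℓ := pow_le_pow_right₀ hrr1 hℓ
  have hR0 : (0 : ℝ) < R := by linarith
  have hp' : (0 : ℝ) < (p : ℝ) := by positivity
  have hp1 : (1 : ℝ) ≤ (p : ℝ) := by exact_mod_cast hp
  have hV0 : 0 ≤ V := Vsum_nonneg R s hR2
  have hV2 : V ≤ 2 := Vsum_le R s hR2
  have hU0 : (0 : ℝ) ≤ U := by positivity
  have hpU := two_p_U_le r p q ℓ hr hp hq hdp hdq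
  rw [← hU, ← hrr, ← hR] at hpU
  have hUle : (U : ℝ) ≤ R - 1 := by
    have h1 : (U : ℝ) ≤ p * U := le_mul_of_one_le_left hU0 hp1
    linarith
  have hUV : (U : ℝ) + V ≤ 2 * R := by linarith
  -- error from x
  have herr0 : 0 ≤ rr ^ n * (x - xnew r p N0 q ℓ s) :=
    mul_nonneg (by positivity) (by linarith)
  have herr : rr ^ n * (x - xnew r p N0 q ℓ s) < 1 / (2 * rr) := by
    have h1 : rr ^ n * (x - xnew r p N0 q ℓ s) ≤ rr ^ (3 * M) * (1 / rr ^ (4 * M)) := by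
      apply mul_le_mul (pow_le_pow_right₀ hrr1 hn3) (by linarith) (by linarith) (by positivity)
    have h2 : rr ^ (3 * M) * (1 / rr ^ (4 * M)) = 1 / rr ^ M := by
      have : rr ^ (4 * M) = rr ^ (3 * M) * rr ^ M := by rw [← pow_add]; congr 1; ring
      rw [this]; field_simp
    have h3 : 1 / rr ^ M < 1 / (2 * rr) := by
      apply one_div_lt_one_div_of_lt (by positivity)
      calc 2 * rr ≤ rr * rr := by gcongr
        _ = rr ^ 2 := by ring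
        _ < rr ^ 3 := pow_lt_pow_right₀ (by linarith) (by norm_num)
        _ ≤ rr ^ M := pow_le_pow_right₀ hrr1 hM3
    linarith
  have hbound : 2 * (p : ℝ) ^ 2 / rr ^ D0 ≤ 1 / (2 * rr) := by
    rw [div_le_div_iff₀ (by positivity) (by positivity)]
    linarith
  -- main part
  obtain ⟨z, w, hw0, hw1, hzw⟩ : ∃ (z : ℤ) (w : ℝ), 0 ≤ w ∧ w ≤ 2 * (p : ℝ) ^ 2 / rr ^ D0 ∧
      rr ^ n * xnew r p N0 q ℓ s = z + w := by
    have hbase : rr ^ n * xnew r p N0 q ℓ s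
        = p * rr ^ (n - N0) + p ^ 2 * (rr ^ (n - N0) * (U + V) / rr ^ M) := by
      have h1 : rr ^ n = rr ^ (n - N0) * rr ^ N0 := by rw [← pow_add]; congr 1; omega
      unfold xnew eta
      rw [h1]
      rw [← hrr, ← hR, ← hU, ← hV, ← hM]
      field_simp
    rcases hcase with h | ⟨j, n', h1, h2, h3⟩
    · refine ⟨p * (r : ℤ) ^ (n - N0), p ^ 2 * (rr ^ (n - N0) * (U + V) / rr ^ M), by positivity,
        ?_, ?_⟩
      · have h4 : rr ^ (n - N0) * (U + V) / rr ^ M ≤ 2 / rr ^ D0 := by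
          rw [div_le_div_iff₀ (by positivity) (by positivity)]
          calc rr ^ (n - N0) * (U + V) * rr ^ D0 ≤ rr ^ (n - N0) * (2 * R) * rr ^ D0 := by gcongr
            _ = 2 * (rr ^ (n - N0 + ℓ + D0)) := by rw [hR, pow_add, pow_add]; ring
            _ ≤ 2 * rr ^ M := by
              apply mul_le_mul_of_nonneg_left _ (by norm_num)
              apply pow_le_pow_right₀ hrr1
              omega
        calc (p : ℝ) ^ 2 * (rr ^ (n - N0) * (U + V) / rr ^ M) ≤ p ^ 2 * (2 / rr ^ D0) := by gcongr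
          _ = 2 * (p : ℝ) ^ 2 / rr ^ D0 := by ring
      · rw [hbase]; push_cast; rfl
    · -- case B
      obtain ⟨I, hI⟩ : ∃ I : ℤ, R ^ (j + 1) = 1 + I * (R - 1) := by
        obtain ⟨I, hI⟩ : ((r : ℤ) ^ ℓ - 1) ∣ ((r : ℤ) ^ ℓ) ^ (j + 1) - 1 := by
          simpa using sub_dvd_pow_sub_pow ((r : ℤ) ^ ℓ) 1 (j + 1)
        refine ⟨I, ?_⟩
        have h2 : (((r : ℝ) ^ ℓ) ^ (j + 1) - 1) = ((r : ℝ) ^ ℓ - 1) * I := by exact_mod_cast hI
        rw [hR, hrr]; linarith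
      have hR1 : (0 : ℝ) < R - 1 := by linarith
      set t : ℝ := R ^ j * (R⁻¹) ^ s with ht
      have ht0 : 0 < t := by positivity
      have hRt : R * t ≤ 1 := by
        rw [ht, inv_pow, ← mul_assoc, ← pow_succ', ← div_eq_mul_inv, div_le_one (by positivity)]
        exact pow_le_pow_right₀ (by linarith) h3
      have hRV : R ^ j * V = I + (1 - R * t) / (R - 1) := by
        have h1 : R ^ j * V = (R ^ (j + 1) - R * t) / (R - 1) := by
          rw [hV, Vsum_eq R s hR2, ht, pow_succ]; field_simp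
        rw [h1, hI]
        field_simp
        ring
      have hrn : rr ^ (n - N0) / rr ^ M = R ^ j * rr ^ n' := by
        have h5 : n - N0 = M + ℓ * j + n' := by omega
        rw [h5, pow_add, pow_add, hR, ← pow_mul]
        field_simp
      refine ⟨p * (r : ℤ) ^ (n - N0) + p ^ 2 * (r : ℤ) ^ n' * (((r : ℤ) ^ ℓ) ^ j * U + I),
        p ^ 2 * (rr ^ n' * ((1 - R * t) / (R - 1))), ?_, ?_, ?_⟩
      · have : 0 ≤ (1 - R * t) / (R - 1) := div_nonneg (by linarith) hR1.le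
        positivity
      · have h5 : (1 - R * t) / (R - 1) ≤ 2 / R := by
          rw [div_le_div_iff₀ hR1 hR0]
          nlinarith [mul_pos hR0 ht0]
        have h6 : rr ^ n' * (2 / R) ≤ 2 / rr ^ D0 := by
          rw [mul_div_assoc', div_le_div_iff₀ hR0 (by positivity)]
          calc rr ^ n' * 2 * rr ^ D0 = 2 * rr ^ (n' + D0) := by rw [pow_add]; ring
            _ ≤ 2 * R := by
              apply mul_le_mul_of_nonneg_left _ (by norm_num)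
              exact pow_le_pow_right₀ hrr1 h2
        calc (p : ℝ) ^ 2 * (rr ^ n' * ((1 - R * t) / (R - 1))) ≤ p ^ 2 * (rr ^ n' * (2 / R)) := by
              gcongr
          _ ≤ p ^ 2 * (2 / rr ^ D0) := by gcongr
          _ = 2 * (p : ℝ) ^ 2 / rr ^ D0 := by ring
      · rw [hbase]
        have h5 : rr ^ (n - N0) * (U + V) / rr ^ M = rr ^ n' * (R ^ j * U + R ^ j * V) := by
          calc rr ^ (n - N0) * (U + V) / rr ^ M = rr ^ (n - N0) / rr ^ M * (U + V) := by ring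
            _ = _ := by rw [hrn]; ring
        rw [h5, hRV]
        push_cast
        rw [← hrr, ← hR]
        ring
  refine digit_zero r (by omega) x n z ?_ ?_
  · rw [← hrr]
    have : rr ^ n * x = rr ^ n * (x - xnew r p N0 q ℓ s) + rr ^ n * xnew r p N0 q ℓ s := by ring
    rw [this, hzw]; linarith
  · rw [← hrr]
    have h5 : rr ^ n * x = rr ^ n * (x - xnew r p N0 q ℓ s) + rr ^ n * xnew r p N0 q ℓ s := by ring
    have h6 : 1 / rr = 1 / (2 * rr) + 1 / (2 * rr) := by field_simp; norm_num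
    rw [h5, hzw, h6]; linarith

end Pool.Agent.Lib.MP_18663b_an
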