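import Pool.Agent.Lib.MP_18663b_an.Basic

set_option autoImplicit false

namespace Pool.Agent.Lib.MP_18663b_an

open Finset

lemma pow_expand (a : ℤ) (n : ℕ) : ∃ K : ℤ, (1 + a) ^ n = 1 + n * a + K * a ^ 2 := by
  induction n with
  | zero => exact ⟨0, by simp⟩
  | succ n ih =>
    obtain ⟨K, hK⟩ := ih
    refine ⟨n + K + K * a, ?_⟩
    rw [pow_succ, hK]
    push_cast
    ring

/-- if `p ∣ r^ℓ - 1` then `r^(ℓ k + n') / p` and `r^n' / p` agree modulo integers. -/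
lemma pow_div_mod (r p ℓ k n' : ℕ) (hr : 2 ≤ r) (hp : 0 < p) (hd : p ∣ r ^ ℓ - 1) :
    ∃ z : ℤ, (r : ℝ) ^ (ℓ * k + n') / (p : ℝ) = z + (r : ℝ) ^ n' / (p : ℝ) := by
  have h1 : 1 ≤ r ^ ℓ := Nat.one_le_pow _ _ (by omega)
  have h2 : (p : ℤ) ∣ ((r : ℤ) ^ ℓ) ^ k - 1 := by
    have h3 : (p : ℤ) ∣ (r : ℤ) ^ ℓ - 1 := by
      have : ((p : ℕ) : ℤ) ∣ ((r ^ ℓ - 1 : ℕ) : ℤ) := Int.natCast_dvd_natCast.2 hd
      rw [Nat.cast_sub h1] at this
      simpa using this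
    exact h3.trans (by simpa using sub_dvd_pow_sub_pow ((r : ℤ) ^ ℓ) 1 k)
  obtain ⟨z, hz⟩ := h2
  refine ⟨(r : ℤ) ^ n' * z, ?_⟩
  have hz' : ((r : ℝ) ^ ℓ) ^ k - 1 = p * z := by exact_mod_cast hz
  have hp' : (p : ℝ) ≠ 0 := by positivity
  rw [pow_add, pow_mul]
  push_cast
  have : ((r : ℝ) ^ ℓ) ^ k = p * z + 1 := by linarith
  rw [this]
  field_simp

/-- The geometric sum `V = ∑_{i<s} R^{-i}`. -/
noncomputable def Vsum (R : ℝ) (s : ℕ) : ℝ := ∑ i ∈ range s, (R⁻¹) ^ i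

lemma Vsum_eq (R : ℝ) (s : ℕ) (hR : 2 ≤ R) :
    Vsum R s = R / (R - 1) * (1 - (R⁻¹) ^ s) := by
  unfold Vsum
  have h0 : R ≠ 0 := by linarith
  have h1 : R⁻¹ ≠ 1 := by
    intro h
    have : R = 1 := by rw [← inv_inv R, h, inv_one]
    linarith
  rw [geom_sum_eq h1]
  have h2 : R - 1 ≠ 0 := by linarith
  have h3 : R⁻¹ - 1 ≠ 0 := sub_ne_zero.2 h1
  have h4 : R⁻¹ - 1 = -(R - 1) / R := by field_simp; ring
  rw [h4]
  field_simp
  ring

lemma Vsum_nonneg (R : ℝ) (s : ℕ) (hR : 2 ≤ R) : 0 ≤ Vsum R s := by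
  unfold Vsum
  have : 0 ≤ R := by linarith
  positivity

lemma Vsum_le (R : ℝ) (s : ℕ) (hR : 2 ≤ R) : Vsum R s ≤ 2 := by
  rw [Vsum_eq R s hR]
  have h1 : R / (R - 1) ≤ 2 := by rw [div_le_iff₀ (by linarith)]; linarith
  have h2 : 0 ≤ (R⁻¹) ^ s := by have : 0 ≤ R := by linarith
                                positivity
  have h3 : 0 ≤ R / (R - 1) := div_nonneg (by linarith) (by linarith)
  nlinarith

/-- multiplying by a large power of `R` clears denominators. -/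
lemma Vsum_int (R : ℤ) (s k : ℕ) (hR : 0 < R) (hk : s ≤ k + 1) :
    ∃ z : ℤ, ((R : ℤ) : ℝ) ^ k * Vsum (R : ℝ) s = z := by
  refine ⟨∑ i ∈ range s, R ^ (k - i), ?_⟩
  unfold Vsum
  rw [Finset.mul_sum]
  push_cast
  refine Finset.sum_congr rfl (fun i hi => ?_)
  have h1 : i ≤ k := by have := Finset.mem_range.1 hi; omega
  have h2 : (R : ℝ) ≠ 0 := by positivity
  rw [inv_pow, ← div_eq_mul_inv, div_eq_iff (by positivity), ← pow_add]
  congr 1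
  omega

/-- The integer `U` of the construction. -/
def Ufun (r p q ℓ : ℕ) : ℕ := ((r ^ ℓ - 1) / q + ((r ^ ℓ - 1) - (r ^ ℓ - 1) / p)) / (2 * p)

/-- The perturbation `η`. -/
noncomputable def eta (r p q ℓ s : ℕ) : ℝ :=
  ((Ufun r p q ℓ : ℝ) + Vsum ((r : ℝ) ^ ℓ) s) / (r : ℝ) ^ ((s + 4) * ℓ)

/-- The new approximation. -/
noncomputable def xnew (r p N0 q ℓ s : ℕ) : ℝ :=
  (p : ℝ) / (r : ℝ) ^ N0 * (1 + p * eta r p q ℓ s)

lemma Ufun_spec (r p q ℓ : ℕ) (hr : 2 ≤ r) (hp : 0 < p) (hq : 0 < q)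
    (hdp : p ∣ r ^ ℓ - 1) (hdq : q ∣ r ^ ℓ - 1) :
    ∃ ρ : ℝ, 0 ≤ ρ ∧ ρ ≤ 2 * p ∧
      2 * (p : ℝ) * (Ufun r p q ℓ : ℝ) =
        ((r : ℝ) ^ ℓ - 1) * (1 / q - 1 / p + 1) - ρ := by
  have h1 : 1 ≤ r ^ ℓ := Nat.one_le_pow _ _ (by omega)
  set B : ℕ := (r ^ ℓ - 1) / q + ((r ^ ℓ - 1) - (r ^ ℓ - 1) / p) with hB
  have h2 : 2 * p * (B / (2 * p)) + B % (2 * p) = B := Nat.div_add_mod B (2 * p)
  have h3 : B % (2 * p) < 2 * p := Nat.mod_lt _ (by omega)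
  refine ⟨((B % (2 * p) : ℕ) : ℝ), by positivity, by exact_mod_cast h3.le, ?_⟩
  have h4 : (r ^ ℓ - 1) / p ≤ r ^ ℓ - 1 := Nat.div_le_self _ _
  have hp' : (p : ℝ) ≠ 0 := by positivity
  have hq' : (q : ℝ) ≠ 0 := by positivity
  have h5 : (B : ℝ) = ((r : ℝ) ^ ℓ - 1) * (1 / q - 1 / p + 1) := by
    rw [hB]
    rw [Nat.cast_add, Nat.cast_sub h4, Nat.cast_div hdp hp', Nat.cast_div hdq hq', Nat.cast_sub h1]
    push_cast
    ring
  have h6 : ((2 * p * (B / (2 * p)) + B % (2 * p) : ℕ) : ℝ) = (B : ℝ) := by rw [h2]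
  push_cast at h6
  have h7 : (Ufun r p q ℓ : ℝ) = ((B / (2 * p) : ℕ) : ℝ) := rfl
  rw [h7, ← h5]
  linarith

lemma two_p_U_le (r p q ℓ : ℕ) (hr : 2 ≤ r) (hp : 0 < p) (hq : 0 < q)
    (hdp : p ∣ r ^ ℓ - 1) (hdq : q ∣ r ^ ℓ - 1) :
    2 * (p : ℝ) * (Ufun r p q ℓ : ℝ) ≤ 2 * ((r : ℝ) ^ ℓ - 1) := by
  obtain ⟨ρ, h0, _, h2⟩ := Ufun_spec r p q ℓ hr hp hq hdp hdq
  have h3 : (1 : ℝ) ≤ (r : ℝ) ^ ℓ := one_le_pow₀ (by exact_mod_cast (by omega : 1 ≤ r))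
  have h4 : (1 : ℝ) / q ≤ 1 := by
    rw [div_le_one (by positivity)]; exact_mod_cast hq
  have h5 : (0 : ℝ) ≤ 1 / p := by positivity
  rw [h2]
  nlinarith

set_option maxHeartbeats 4000000 in
/-- Position of `r^n / x1` modulo integers inside the window `[2M, 3M)`. -/
lemma window (r p N0 q ℓ s G j n' : ℕ) (y : ℝ) (hr : 2 ≤ r) (hp : 0 < p) (hq : 0 < q)
    (hℓ : 1 ≤ ℓ) (hdp : p ∣ r ^ ℓ - 1) (hdq : q ∣ r ^ ℓ - 1) (hj : j + 2 ≤ s)
    (hn' : n' + G ≤ ℓ) (hpR : 8 * (p : ℝ) ^ 2 ≤ ((r : ℝ) ^ ℓ) ^ 2)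
    (hN0 : N0 ≤ 2 * ((s + 4) * ℓ))
    (hy : |y - 1 / xnew r p N0 q ℓ s| ≤ 1 / (r : ℝ) ^ (4 * ((s + 4) * ℓ))) :
    ∃ z : ℤ, |(r : ℝ) ^ (2 * ((s + 4) * ℓ) + ℓ * j + n' - N0) * y - z - (r : ℝ) ^ n' / q|
      ≤ (2 * p * s + 10 * p + 4) / (r : ℝ) ^ G := by
  set M : ℕ := (s + 4) * ℓ with hM
  set n : ℕ := 2 * M + ℓ * j + n' with hn
  set rr : ℝ := (r : ℝ) with hrr
  set R : ℝ := rr ^ ℓ with hR
  set U : ℕ := Ufun r p q ℓ with hU
  set V : ℝ := Vsum R s with hV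
  have hrr2 : (2 : ℝ) ≤ rr := by rw [hrr]; exact_mod_cast hr
  have hrr0 : (0 : ℝ) < rr := by linarith
  have hrr1 : (1 : ℝ) ≤ rr := by linarith
  have hR2 : (2 : ℝ) ≤ R := by
    calc (2 : ℝ) ≤ rr := hrr2
      _ = rr ^ 1 := (pow_one _).symm
      _ ≤ rr ^ ℓ := pow_le_pow_right₀ hrr1 hℓ
  have hR0 : (0 : ℝ) < R := by linarith
  have hp' : (0 : ℝ) < (p : ℝ) := by positivity
  have hp1 : (1 : ℝ) ≤ (p : ℝ) := by exact_mod_cast hp
  have hq' : (0 : ℝ) < (q : ℝ) := by positivity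
  have hV0 : 0 ≤ V := Vsum_nonneg R s hR2
  have hV2 : V ≤ 2 := Vsum_le R s hR2
  have hU0 : (0 : ℝ) ≤ U := by positivity
  set D : ℝ := rr ^ n' with hD
  have hD0 : 0 < D := by positivity
  set g : ℝ := 1 / rr ^ G with hg
  have hg0 : 0 < g := by positivity
  -- D / R ≤ g
  have hDg : D ≤ R * g := by
    rw [hg, mul_one_div, le_div_iff₀ (by positivity), hD, hR, ← pow_add]
    exact pow_le_pow_right₀ hrr1 hn'
  -- eta
  set η : ℝ := eta r p q ℓ s with hη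
  have hηdef : η = (U + V) / rr ^ M := rfl
  have hη0 : 0 ≤ η := by rw [hηdef]; positivity
  have h1pη : 0 < 1 + p * η := by positivity
  -- bound of U
  have hpU := two_p_U_le r p q ℓ hr hp hq hdp hdq
  rw [← hU, ← hrr, ← hR] at hpU
  have hUle : (U : ℝ) ≤ R - 1 := by
    have h1 : (U : ℝ) ≤ p * U := le_mul_of_one_le_left hU0 hp1
    linarith
  -- expansion of 1/x1
  have hx1 : 1 / xnew r p N0 q ℓ s = rr ^ N0 / (p * (1 + p * η)) := by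
    unfold xnew
    rw [← hη, ← hrr]
    field_simp
  have hexp : rr ^ (n - N0) * (1 / xnew r p N0 q ℓ s)
      = rr ^ n / p - rr ^ n * η + p * rr ^ n * η ^ 2 - rr ^ n * p ^ 2 * η ^ 3 / (1 + p * η) := by
    rw [hx1]
    have h1 : rr ^ n = rr ^ (n - N0) * rr ^ N0 := by
      rw [← pow_add]; congr 1; omega
    rw [h1]
    field_simp
    ring
  have hrn : rr ^ n = rr ^ (2 * M) * R ^ j * D := by
    rw [hn, pow_add, pow_add, hR, ← pow_mul]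
  -- (A)
  obtain ⟨z1, hz1⟩ : ∃ z : ℤ, rr ^ n / p = z + D / p := by
    have h1 : n = ℓ * (2 * (s + 4) + j) + n' := by rw [hn, hM]; ring
    rw [h1]
    exact pow_div_mod r p ℓ _ n' hr hp hdp
  -- (B)
  obtain ⟨z2, hz2⟩ : ∃ z : ℤ, rr ^ n * η = z := by
    have h1 : rr ^ n * η = D * (R ^ (s + 4 + j) * (U + V)) := by
      rw [hηdef, hrn, two_mul, pow_add]
      have h2 : rr ^ M = R ^ (s + 4) := by rw [hR, ← pow_mul, hM, mul_comm]
      rw [h2]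
      field_simp
      ring
    obtain ⟨z, hz⟩ := Vsum_int ((r : ℤ) ^ ℓ) s (s + 4 + j) (by positivity) (by omega)
    have hz' : R ^ (s + 4 + j) * V = z := by
      rw [hV, hR, hrr]
      push_cast at hz
      exact hz
    refine ⟨(r : ℤ) ^ n' * (((r : ℤ) ^ ℓ) ^ (s + 4 + j) * U + z), ?_⟩
    rw [h1, mul_add, hz']
    push_cast
    rw [hD, hR]
  -- integers I, K
  obtain ⟨I, hI⟩ : ∃ I : ℤ, R ^ (j + 1) = 1 + I * (R - 1) := by
    obtain ⟨I, hI⟩ : ((r : ℤ) ^ ℓ - 1) ∣ ((r : ℤ) ^ ℓ) ^ (j + 1) - 1 := by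
      simpa using sub_dvd_pow_sub_pow ((r : ℤ) ^ ℓ) 1 (j + 1)
    refine ⟨I, ?_⟩
    have h2 : (((r : ℝ) ^ ℓ) ^ (j + 1) - 1) = ((r : ℝ) ^ ℓ - 1) * I := by exact_mod_cast hI
    rw [hR, hrr]; linarith
  obtain ⟨K, hK⟩ : ∃ K : ℤ, R ^ (j + 2) = 1 + (j + 2) * (R - 1) + K * (R - 1) ^ 2 := by
    obtain ⟨K, hK⟩ := pow_expand ((r : ℤ) ^ ℓ - 1) (j + 2)
    refine ⟨K, ?_⟩
    have h2 : (1 + ((r : ℝ) ^ ℓ - 1)) ^ (j + 2) = 1 + ((j + 2 : ℕ) : ℝ) * ((r : ℝ) ^ ℓ - 1)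
        + K * ((r : ℝ) ^ ℓ - 1) ^ 2 := by exact_mod_cast hK
    rw [hR, hrr]
    push_cast at h2
    rw [add_sub_cancel] at h2
    linarith
  have hR1 : (0 : ℝ) < R - 1 := by linarith
  have hR1' : R - 1 ≠ 0 := hR1.ne'
  set τ : ℝ := (R⁻¹) ^ s with hτ
  have hτ0 : 0 < τ := by positivity
  set t : ℝ := R ^ j * τ with ht
  have ht0 : 0 < t := by positivity
  have htR : t * R ^ 2 ≤ 1 := by
    rw [ht, hτ, inv_pow, mul_assoc, mul_comm ((R ^ s)⁻¹) (R ^ 2), ← mul_assoc, ← pow_add,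
      ← div_eq_mul_inv, div_le_one (by positivity)]
    exact pow_le_pow_right₀ (by linarith) hj
  have hVeq : V = R / (R - 1) * (1 - τ) := Vsum_eq R s hR2
  have hRV : R ^ j * V = I + 1 / (R - 1) - R / (R - 1) * t := by
    have h1 : R ^ j * V = (R ^ (j + 1) - R * t) / (R - 1) := by
      rw [hVeq, ht, pow_succ]; field_simp
    rw [h1, hI]
    field_simp
    ring
  have hRV2 : R ^ j * V ^ 2 = K + (j + 2) / (R - 1) + 1 / (R - 1) ^ 2
      - (R / (R - 1)) ^ 2 * (2 * t - t * τ) := by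
    have h1 : R ^ j * V ^ 2 = (R ^ (j + 2) - R ^ 2 * (2 * t - t * τ)) / (R - 1) ^ 2 := by
      rw [hVeq, ht, pow_add]; field_simp; ring
    rw [h1, hK]
    field_simp
    ring
  -- (C)
  have hC : p * rr ^ n * η ^ 2 = p * D * (R ^ j * (U + V) ^ 2) := by
    have h1 : rr ^ (2 * M) = (rr ^ M) ^ 2 := by rw [← pow_mul, mul_comm M 2]
    rw [hrn, hηdef, div_pow, h1]
    field_simp
  have hC2 : R ^ j * ((U : ℝ) + V) ^ 2 = U ^ 2 * R ^ j + 2 * U * (R ^ j * V) + R ^ j * V ^ 2 := by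
    ring
  obtain ⟨ρ, hρ0, hρ1, hρ2⟩ := Ufun_spec r p q ℓ hr hp hq hdp hdq
  rw [← hU, ← hrr, ← hR] at hρ2
  -- third order
  set T3 : ℝ := rr ^ n * p ^ 2 * η ^ 3 / (1 + p * η) with hT3
  have hT30 : 0 ≤ T3 := by positivity
  have hUV : (U : ℝ) + V ≤ 2 * R := by linarith
  have hT3le : T3 ≤ g := by
    have h1 : T3 ≤ rr ^ n * p ^ 2 * η ^ 3 := by
      rw [hT3]
      apply div_le_self (by positivity)
      have : 0 ≤ (p : ℝ) * η := by positivity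
      linarith
    have h2 : rr ^ n * p ^ 2 * η ^ 3 = p ^ 2 * (U + V) ^ 3 * R ^ j * D / rr ^ M := by
      have h1 : rr ^ (2 * M) = (rr ^ M) ^ 2 := by rw [← pow_mul, mul_comm M 2]
      rw [hrn, hηdef, div_pow, h1]
      field_simp
    have h3 : rr ^ M = R ^ (s + 4) := by rw [hR, ← pow_mul, hM, mul_comm]
    have h4 : ((U : ℝ) + V) ^ 3 ≤ (2 * R) ^ 3 := by
      apply pow_le_pow_left₀ (by positivity) hUV
    have h5 : rr ^ n * p ^ 2 * η ^ 3 ≤ p ^ 2 * (2 * R) ^ 3 * R ^ j * (R * g) / R ^ (s + 4) := by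
      rw [h2, h3]
      gcongr
    have h6 : R ^ (s + 4) = R ^ s * R ^ 4 := pow_add R s 4
    have h7 : p ^ 2 * (2 * R) ^ 3 * R ^ j * (R * g) / R ^ (s + 4) = 8 * p ^ 2 * R ^ j / R ^ s * g := by
      rw [h6]; field_simp; ring
    have h8 : 8 * (p : ℝ) ^ 2 * R ^ j / R ^ s ≤ 1 := by
      rw [div_le_one (by positivity)]
      calc 8 * (p : ℝ) ^ 2 * R ^ j ≤ R ^ 2 * R ^ j := by gcongr
        _ = R ^ (j + 2) := by ring
        _ ≤ R ^ s := pow_le_pow_right₀ (by linarith) hj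
    calc T3 ≤ _ := h1
      _ ≤ _ := h5
      _ = _ := h7
      _ ≤ 1 * g := by gcongr
      _ = g := one_mul g
  -- error in y
  have hyerr : |rr ^ (n - N0) * y - rr ^ (n - N0) * (1 / xnew r p N0 q ℓ s)| ≤ g := by
    rw [← mul_sub, abs_mul, abs_of_pos (by positivity : (0 : ℝ) < rr ^ (n - N0))]
    calc rr ^ (n - N0) * |y - 1 / xnew r p N0 q ℓ s|
        ≤ rr ^ (n - N0) * (1 / rr ^ (4 * M)) := by gcongr
      _ ≤ g := by
        rw [hg, mul_one_div, div_le_div_iff₀ (by positivity) (by positivity), one_mul, ← pow_add]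
        apply pow_le_pow_right₀ hrr1
        have h1 : ℓ * j + ℓ * 2 ≤ ℓ * s := by rw [← mul_add]; exact Nat.mul_le_mul_left _ hj
        have h2 : M = ℓ * s + ℓ * 4 := by rw [hM]; ring
        omega
  -- assemble
  refine ⟨z1 - z2 + (r : ℤ) ^ n' * (p * U ^ 2 * ((r : ℤ) ^ ℓ) ^ j + 2 * p * U * I + p * K)
    + (r : ℤ) ^ n', ?_⟩
  have hmain : rr ^ (n - N0) * (1 / xnew r p N0 q ℓ s)
      - ((z1 - z2 + (r : ℤ) ^ n' * (p * U ^ 2 * ((r : ℤ) ^ ℓ) ^ j + 2 * p * U * I + p * K)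
        + (r : ℤ) ^ n' : ℤ) : ℝ) - D / q
      = - (D * ρ / (R - 1)) - 2 * p * U * D * (R / (R - 1)) * t
        + p * D * ((j + 2) / (R - 1) + 1 / (R - 1) ^ 2)
        - p * D * ((R / (R - 1)) ^ 2 * (2 * t - t * τ)) - T3 := by
    rw [hexp, hC, hC2, hRV, hRV2, hz1, hz2]
    push_cast
    rw [← hrr, ← hD, ← hR]
    have h1 : D * (2 * (p : ℝ) * (U : ℝ)) / (R - 1) = D / q - D / p + D - D * ρ / (R - 1) := by
      rw [hρ2]
      field_simp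
    have h2 : p * D * (2 * U * (I + 1 / (R - 1) - R / (R - 1) * t))
        = D * (2 * p * U * I) + D * (2 * (p : ℝ) * (U : ℝ)) / (R - 1)
          - 2 * p * U * D * (R / (R - 1)) * t := by
      ring
    have h3 : p * D * (U ^ 2 * R ^ j + 2 * U * (I + 1 / (R - 1) - R / (R - 1) * t)
        + (K + (j + 2) / (R - 1) + 1 / (R - 1) ^ 2 - (R / (R - 1)) ^ 2 * (2 * t - t * τ)))
        = p * D * (U ^ 2 * R ^ j) + p * D * (2 * U * (I + 1 / (R - 1) - R / (R - 1) * t))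
         + p * D * (K + (j + 2) / (R - 1) + 1 / (R - 1) ^ 2
            - (R / (R - 1)) ^ 2 * (2 * t - t * τ)) := by ring
    rw [h3, h2, h1]
    ring
  -- bounds of the error terms
  have hRR : R ≤ 2 * (R - 1) := by linarith
  have hδ : D / (R - 1) ≤ 2 * g := by
    rw [div_le_iff₀ hR1]
    calc D ≤ R * g := hDg
      _ ≤ (2 * (R - 1)) * g := by gcongr
      _ = 2 * g * (R - 1) := by ring
  have hδ0 : 0 ≤ D / (R - 1) := by positivity
  have hE1 : D * ρ / (R - 1) ≤ 4 * p * g := by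
    calc D * ρ / (R - 1) = D / (R - 1) * ρ := by ring
      _ ≤ (2 * g) * (2 * p) := by gcongr
      _ = 4 * p * g := by ring
  have hE10 : 0 ≤ D * ρ / (R - 1) := by positivity
  have hRq : R / (R - 1) ≤ 2 := by rw [div_le_iff₀ hR1]; linarith
  have hRq0 : 0 ≤ R / (R - 1) := by positivity
  have htR1 : t * R ≤ 1 / 2 := by
    have h1 : t * R * 2 ≤ t * R * R := by gcongr
    have h2 : t * R * R = t * R ^ 2 := by ring
    linarith
  have hDt : D * t ≤ g / 2 := by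
    calc D * t ≤ (R * g) * t := by gcongr
      _ = (t * R) * g := by ring
      _ ≤ (1 / 2) * g := by gcongr
      _ = g / 2 := by ring
  have hDt2 : D * (t * R) ≤ g := by
    calc D * (t * R) ≤ (R * g) * (t * R) := by gcongr
      _ = (t * R ^ 2) * g := by ring
      _ ≤ 1 * g := by gcongr
      _ = g := by ring
  have hE2 : 2 * p * U * D * (R / (R - 1)) * t ≤ 2 * g := by
    calc 2 * p * U * D * (R / (R - 1)) * t = (2 * p * U) * (D * (R / (R - 1)) * t) := by ring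
      _ ≤ (2 * (R - 1)) * (D * (R / (R - 1)) * t) := by gcongr
      _ = 2 * (D * (t * R)) := by field_simp
      _ ≤ 2 * g := by gcongr
  have hE20 : 0 ≤ 2 * p * U * D * (R / (R - 1)) * t := by positivity
  have hjs : (j : ℝ) + 2 ≤ s := by exact_mod_cast hj
  have hE3 : p * D * ((j + 2) / (R - 1) + 1 / (R - 1) ^ 2) ≤ 2 * p * (s + 1) * g := by
    have h1 : p * D * ((j + 2) / (R - 1) + 1 / (R - 1) ^ 2)
        = p * (D / (R - 1)) * ((j + 2) + 1 / (R - 1)) := by field_simp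
    have h2 : 1 / (R - 1) ≤ 1 := by rw [div_le_one hR1]; linarith
    rw [h1]
    calc p * (D / (R - 1)) * ((j + 2) + 1 / (R - 1)) ≤ p * (2 * g) * (s + 1) := by gcongr
      _ = 2 * p * (s + 1) * g := by ring
  have hE30 : 0 ≤ p * D * ((j + 2) / (R - 1) + 1 / (R - 1) ^ 2) := by positivity
  have hτ1 : τ ≤ 1 := by
    rw [hτ]; apply pow_le_one₀ (by positivity)
    exact inv_le_one_of_one_le₀ (by linarith)
  have h2t1 : t * τ ≤ t := mul_le_of_le_one_right ht0.le hτ1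
  have h2t2 : 0 ≤ t * τ := by positivity
  have h2t : 0 ≤ 2 * t - t * τ := by linarith
  have h2t' : 2 * t - t * τ ≤ 2 * t := by linarith
  have hE4 : p * D * ((R / (R - 1)) ^ 2 * (2 * t - t * τ)) ≤ 4 * p * g := by
    calc p * D * ((R / (R - 1)) ^ 2 * (2 * t - t * τ)) ≤ p * D * (2 ^ 2 * (2 * t)) := by gcongr
      _ = 8 * p * (D * t) := by ring
      _ ≤ 8 * p * (g / 2) := by gcongr
      _ = 4 * p * g := by ring
  have hE40 : 0 ≤ p * D * ((R / (R - 1)) ^ 2 * (2 * t - t * τ)) := by positivity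
  have hgoal : (2 * p * s + 10 * p + 4) / rr ^ G = (2 * p * s + 10 * p + 4) * g := by
    rw [hg]; ring
  rw [hgoal]
  have hpg : 0 ≤ p * g := by positivity
  have hpsg : 0 ≤ p * s * g := by positivity
  have hexpand : (2 * p * s + 10 * p + 4) * g = 2 * p * (s + 1) * g + 4 * p * g + 4 * p * g
      + 2 * g + g + g := by ring
  have hexpand2 : 4 * p * g = 4 * (p * g) := by ring
  generalize (((z1 - z2 + (r : ℤ) ^ n' * (p * U ^ 2 * ((r : ℤ) ^ ℓ) ^ j + 2 * p * U * I + p * K)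
        + (r : ℤ) ^ n' : ℤ) : ℝ)) = Z at hmain ⊢
  generalize hA : rr ^ (n - N0) * (1 / xnew r p N0 q ℓ s) = A at hmain hyerr
  generalize rr ^ (n - N0) * y = Y at hyerr ⊢
  generalize D * ρ / (R - 1) = e1 at hmain hE1 hE10
  generalize 2 * p * U * D * (R / (R - 1)) * t = e2 at hmain hE2 hE20
  generalize p * D * ((j + 2) / (R - 1) + 1 / (R - 1) ^ 2) = e3 at hmain hE3 hE30
  generalize p * D * ((R / (R - 1)) ^ 2 * (2 * t - t * τ)) = e4 at hmain hE4 hE40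
  generalize D / (q : ℝ) = Dq at hmain ⊢
  rw [hexpand]
  have h3 : 0 ≤ 2 * p * (s + 1) * g := by positivity
  generalize 2 * p * (s + 1) * g = w1 at hE3 h3 ⊢
  rw [hexpand2] at hE1 hE4 ⊢
  generalize (p : ℝ) * g = w2 at hE1 hE4 hpg ⊢
  rw [abs_le] at hyerr ⊢
  obtain ⟨hy1, hy2⟩ := hyerr
  constructor
  · linarith
  · linarith

end Pool.Agent.Lib.MP_18663b_an
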